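import Pool.Agent.Q122.FM.Stm

set_option autoImplicit false

/-!
Project FM (helper122), job CON: the constants.
-/

namespace Pool.Agent.Q275.FM

open Finset Filter Topology MeasureTheory Pool.Agent.H306R2.RZ Pool.Agent.H306R2.RG
open Pool.Agent.Q122.FM

noncomputable section

lemma sum_pr (f : ℕ → ℝ) (hf : Summable f) : Summable (fun p : Nat.Primes => f (p : ℕ)) :=
  hf.comp_injective Nat.Primes.coe_nat_injective

lemma sum_sq : Summable (fun p : Nat.Primes => 1 / ((p : ℕ) : ℝ) ^ 2) :=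
  sum_pr (fun n => 1 / (n : ℝ) ^ 2) (Real.summable_one_div_nat_pow.mpr one_lt_two)

/-- factors -/
def fA (p : Nat.Primes) : ℝ := 1 - 1 / ((p : ℕ) : ℝ) ^ 2
def fB (p : Nat.Primes) : ℝ := 1 - 1 / (((p : ℕ) : ℝ) * (((p : ℕ) : ℝ) + 1))
def fC (p : Nat.Primes) : ℝ := 1 - 2 / ((p : ℕ) : ℝ) ^ 2 + 1 / ((p : ℕ) : ℝ) ^ 3
def fD (p : Nat.Primes) : ℝ := if (p : ℕ) = 2 then 1 else fC p
def fE (p : Nat.Primes) : ℝ := if (p : ℕ) = 2 then 5 / 8 else 1

lemma two_le_p (p : Nat.Primes) : (2 : ℝ) ≤ ((p : ℕ) : ℝ) := by exact_mod_cast p.2.two_le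

lemma mul_of (f : Nat.Primes → ℝ) (C : ℝ) (h : ∀ p, |f p - 1| ≤ C * (1 / ((p : ℕ) : ℝ) ^ 2)) :
    Multipliable f := by
  have h1 : Summable (fun p => f p - 1) := by
    apply Summable.of_norm_bounded (sum_sq.mul_left C)
    intro p
    exact h p
  have h2 := Real.multipliable_one_add_of_summable h1
  refine h2.congr ?_
  intro p
  ring

lemma mulA : Multipliable fA := by
  apply mul_of fA 1
  intro p
  have := two_le_p p
  have e : fA p - 1 = -(1 / ((p : ℕ) : ℝ) ^ 2) := by unfold fA; ring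
  rw [e, abs_neg, abs_of_nonneg (by positivity), one_mul]

lemma mulB : Multipliable fB := by
  apply mul_of fB 1
  intro p
  have hp := two_le_p p
  have e : fB p - 1 = -(1 / (((p : ℕ) : ℝ) * (((p : ℕ) : ℝ) + 1))) := by unfold fB; ring
  rw [e, abs_neg, abs_of_nonneg (by positivity), one_mul]
  apply one_div_le_one_div_of_le (by positivity)
  nlinarith

lemma mulD : Multipliable fD := by
  apply mul_of fD 3
  intro p
  have hp := two_le_p p
  have h0 : 0 ≤ 3 * (1 / ((p : ℕ) : ℝ) ^ 2) := by positivity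
  unfold fD
  split_ifs
  · simp only [sub_self, abs_zero]
    exact h0
  · have e : fC p - 1 = -(2 / ((p : ℕ) : ℝ) ^ 2) + 1 / ((p : ℕ) : ℝ) ^ 3 := by unfold fC; ring
    have h3 : 1 / ((p : ℕ) : ℝ) ^ 3 ≤ 1 / ((p : ℕ) : ℝ) ^ 2 := by
      apply one_div_le_one_div_of_le (by positivity)
      exact pow_le_pow_right₀ (by linarith) (by norm_num)
    have h4 : 0 ≤ 1 / ((p : ℕ) : ℝ) ^ 3 := by positivity
    have h5 : 0 ≤ 1 / ((p : ℕ) : ℝ) ^ 2 := by positivity
    have h6 : 2 / ((p : ℕ) : ℝ) ^ 2 = 2 * (1 / ((p : ℕ) : ℝ) ^ 2) := by ring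
    rw [e, h6, abs_le]
    constructor <;> linarith

/-- the prime `2` -/
def p2 : Nat.Primes := ⟨2, Nat.prime_two⟩

lemma ne_p2 (p : Nat.Primes) (h : p ≠ p2) : ¬ ((p : ℕ) = 2) := by
  intro h2
  apply h
  exact Subtype.ext h2

lemma mulE : HasProd fE (5 / 8) := by
  have h := hasProd_single (f := fE) p2 (by
    intro p hp
    unfold fE
    rw [if_neg (ne_p2 p hp)])
  have h2 : (p2 : ℕ) = 2 := rfl
  have e : fE p2 = 5 / 8 := if_pos h2
  rwa [e] at h

/-- `p ↦ 1/p²` as a homomorphism -/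
def fhom : ℕ →*₀ ℝ where
  toFun n := 1 / (n : ℝ) ^ 2
  map_zero' := by simp
  map_one' := by simp
  map_mul' m n := by
    push_cast
    rw [mul_pow, one_div_mul_one_div]

lemma prodA : ∏' p, fA p = 6 / Real.pi ^ 2 := by
  have hs : Summable (fun n : ℕ => ‖fhom n‖) := by
    have h1 : Summable (fun n : ℕ => 1 / (n : ℝ) ^ 2) :=
      Real.summable_one_div_nat_pow.mpr one_lt_two
    exact h1.norm
  have h1 := EulerProduct.eulerProduct_completely_multiplicative_hasProd (f := fhom) hs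
  have h2 : ∑' n : ℕ, fhom n = Real.pi ^ 2 / 6 := hasSum_zeta_two.tsum_eq
  rw [h2] at h1
  have h3 : (∏' p, fA p) * (Real.pi ^ 2 / 6) = 1 := by
    rw [← h1.tprod_eq, ← mulA.tprod_mul h1.multipliable]
    have h4 : ∀ p : Nat.Primes, fA p * (1 - fhom (p : ℕ))⁻¹ = 1 := by
      intro p
      have hp := two_le_p p
      have e : (1 - fhom (p : ℕ)) = fA p := rfl
      rw [e]
      apply mul_inv_cancel₀
      unfold fA
      have : 1 / ((p : ℕ) : ℝ) ^ 2 ≤ 1 / 2 ^ 2 := by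
        apply one_div_le_one_div_of_le (by norm_num)
        gcongr
      have h5 : (1 : ℝ) / 2 ^ 2 = 1 / 4 := by norm_num
      rw [h5] at this
      intro h6
      linarith
    simp only [h4, tprod_one]
  have hpi : Real.pi ^ 2 ≠ 0 := by positivity
  field_simp at h3 ⊢
  linarith

lemma key_prod : (5 / 8 : ℝ) * Po = 6 / Real.pi ^ 2 * P1 := by
  have h1 : Po = ∏' p, fD p := rfl
  have h2 : P1 = ∏' p, fB p := rfl
  rw [h1, h2, ← prodA, ← mulE.tprod_eq, ← mulA.tprod_mul mulB,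
    ← mulE.multipliable.tprod_mul mulD]
  apply tprod_congr
  intro p
  have hp := two_le_p p
  have h3 : fA p * fB p = fC p := by
    unfold fA fB fC
    field_simp
    ring
  rw [h3]
  unfold fE fD
  split_ifs with h
  · unfold fC
    rw [h]
    norm_num
  · rw [one_mul]

/-- the terms of the sums -/
def gL (p : Nat.Primes) : ℝ :=
  Real.log ((p : ℕ) : ℝ) / (((p : ℕ) : ℝ) ^ 2 + ((p : ℕ) : ℝ) - 1)

lemma sumL : Summable gL := by
  have h1 : Summable (fun n : ℕ => 1 / (n : ℝ) ^ (3 / 2 : ℝ)) :=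
    Real.summable_one_div_nat_rpow.mpr (by norm_num)
  apply Summable.of_nonneg_of_le _ _ ((sum_pr _ h1).mul_left 2)
  · intro p
    have hp := two_le_p p
    unfold gL
    apply div_nonneg (Real.log_nonneg (by linarith))
    nlinarith
  · intro p
    have hp := two_le_p p
    set x : ℝ := ((p : ℕ) : ℝ) with hx
    have hx0 : 0 < x := by linarith
    unfold gL
    rw [← hx]
    have h2 : Real.log x ≤ 2 * x ^ (1 / 2 : ℝ) := by
      have := Real.log_le_rpow_div hx0.le (show (0 : ℝ) < 1 / 2 by norm_num)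
      linarith
    have h3 : x ^ 2 ≤ x ^ 2 + x - 1 := by linarith
    calc Real.log x / (x ^ 2 + x - 1) ≤ 2 * x ^ (1 / 2 : ℝ) / x ^ 2 := by
          gcongr
      _ = 2 * (1 / x ^ (3 / 2 : ℝ)) := by
          have h4 : x ^ 2 = x ^ (1 / 2 : ℝ) * x ^ (3 / 2 : ℝ) := by
            rw [← Real.rpow_add hx0, ← Real.rpow_natCast]; norm_num
          have h5 : x ^ (1 / 2 : ℝ) ≠ 0 := by positivity
          rw [h4]
          field_simp

lemma Lp_eq : Lp = Lo + Real.log 2 / 5 := by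
  classical
  have h1 : Lp = ∑' p, gL p := rfl
  have h2 : Lo = ∑' p : Nat.Primes, if (p : ℕ) = 2 then 0 else gL p := rfl
  rw [h1, h2, sumL.tsum_eq_add_tsum_ite p2, add_comm]
  congr 1
  · apply tsum_congr
    intro p
    by_cases h : p = p2
    · rw [if_pos h, if_pos (by rw [h]; rfl)]
    · rw [if_neg h, if_neg (ne_p2 p h)]
  · unfold gL p2
    norm_num

theorem t_CON : S_CON := by
  intro x a
  have hs : Real.sqrt 2 ^ 2 = 2 := Real.sq_sqrt (by norm_num)
  have hs0 : 0 < Real.sqrt 2 := by positivity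
  set s : ℝ := (Real.sqrt 2)⁻¹ with hs'
  have hss : s ^ 2 = 1 / 2 := by rw [hs', inv_pow, hs]; norm_num
  have hs1 : s < 1 := by nlinarith [inv_pos.mpr hs0]
  have hsp : 0 < s := inv_pos.mpr hs0
  have hm : 1 - s ≠ 0 := by linarith
  have hp : 1 + s ≠ 0 := by linarith
  have a0 : S0 0 = 1 := by unfold S0; simp
  have a1 : S0 1 = 1 / (1 - s) := by unfold S0; rw [hs', one_div (Real.sqrt 2)]
  have a2 : S0 (-1) = 1 / (1 + s) := by
    unfold S0
    rw [hs', neg_div, one_div (Real.sqrt 2), sub_neg_eq_add]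
  have b0 : S1 0 = 0 := by unfold S1; simp
  have b1 : S1 1 = s / (1 - s) ^ 2 := by unfold S1; rw [hs', one_div (Real.sqrt 2)]
  have b2 : S1 (-1) = -s / (1 + s) ^ 2 := by
    unfold S1
    rw [hs', neg_div, one_div (Real.sqrt 2), sub_neg_eq_add]
  have c0 : 1 / (1 - s) + 1 / (1 + s) = 4 := by
    field_simp
    nlinarith
  have c1 : s / (1 - s) ^ 2 + -s / (1 + s) ^ 2 = 8 := by
    have e1 : s / (1 - s) ^ 2 + -s / (1 + s) ^ 2 = 4 * s ^ 2 / ((1 - s ^ 2) ^ 2) := by
      have : (1 - s ^ 2) = (1 - s) * (1 + s) := by ring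
      rw [this]
      field_simp
      ring
    rw [e1, hss]
    norm_num
  have hk := key_prod
  rw [a0, a1, a2, b0, b1, b2, Q1, Lp_eq]
  set A : ℝ := (x + lam a) / 4 + Real.eulerMascheroniConstant + Real.log 2 + Lo with hA
  have e : 1 / 8 * (Po * (1 * A - Real.log 2 / 2 * 0)) +
      1 / 8 * (Po * (1 / (1 - s) * A - Real.log 2 / 2 * (s / (1 - s) ^ 2))) +
      1 / 8 * (Po * (1 / (1 + s) * A - Real.log 2 / 2 * (-s / (1 + s) ^ 2))) =
      1 / 8 * Po * ((1 + (1 / (1 - s) + 1 / (1 + s))) * A -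
        Real.log 2 / 2 * (s / (1 - s) ^ 2 + -s / (1 + s) ^ 2)) := by ring
  rw [e, c0, c1]
  have e2 : 1 / 8 * Po * ((1 + 4) * A - Real.log 2 / 2 * 8) =
      (5 / 8 * Po) * (A - 4 / 5 * Real.log 2) := by ring
  rw [e2, hk, hA]
  ring

end

end Pool.Agent.Q275.FM
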