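import Pool.Agent.Q275.FM.KS

set_option autoImplicit false

/-!
Project FM (helper122), job FRZ: change of the length of the truncated formula.
-/

namespace Pool.Agent.Q275.FM

open Finset Filter Topology MeasureTheory Pool.Agent.H306R2.RZ Pool.Agent.H306R2.RG
open Pool.Agent.Q122.FM

noncomputable section

lemma exp_b4 (b : ℝ) (hb : 0 < b) : b ^ (1 / 2 : ℝ) * (1 + b) ^ 2 * Real.exp (-(b ^ 4)) ≤ 8 := by
  rw [Real.exp_neg, ← div_eq_mul_inv, div_le_iff₀ (Real.exp_pos _)]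
  have h1 := Real.add_one_le_exp (b ^ 4)
  have h0 : b ^ (1 / 2 : ℝ) ≤ 1 + b := by
    rcases le_total b 1 with h | h
    · have := Real.rpow_le_one hb.le h (by norm_num : (0 : ℝ) ≤ 1 / 2)
      linarith
    · have := Real.rpow_le_rpow_of_exponent_le h (by norm_num : (1 / 2 : ℝ) ≤ 1)
      rw [Real.rpow_one] at this
      linarith
  calc b ^ (1 / 2 : ℝ) * (1 + b) ^ 2 ≤ (1 + b) * (1 + b) ^ 2 := by gcongr
    _ = (1 + b) ^ 3 := by ring
    _ ≤ 8 * Real.exp (b ^ 4) := by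
        rcases le_total b 1 with h | h
        · have : (1 + b) ^ 3 ≤ 2 ^ 3 := by gcongr; linarith
          nlinarith [pow_pos hb 4]
        · have h2 : (1 + b) ^ 3 ≤ (2 * b) ^ 3 := by gcongr; linarith
          have h3 : b ^ 3 ≤ b ^ 4 := pow_le_pow_right₀ h (by norm_num)
          nlinarith

/-- the sum of the kernel over `n` -/
lemma kap_sum (w : ℝ) (N : ℕ) (hw : 0 < w) :
    ∑ n ∈ Icc 1 N, kap ((n : ℝ) ^ 2 * w) ≤ 16 * w ^ (-(1 / 2) : ℝ) := by
  set a : ℝ := w ^ (1 / 4 : ℝ) with ha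
  have ha0 : 0 < a := by rw [ha]; positivity
  have haw : a ^ 4 = w := by
    rw [ha, ← Real.rpow_natCast, ← Real.rpow_mul hw.le]; norm_num
  have haw2 : w ^ (-(1 / 2) : ℝ) = (a ^ 2)⁻¹ := by
    rw [Real.rpow_neg hw.le, ha, ← Real.rpow_natCast, ← Real.rpow_mul hw.le]; norm_num
  have key : ∀ v : ℕ, kap (((v + 1 : ℕ) : ℝ) ^ 2 * w) ≤
      16 * (a ^ 2)⁻¹ * (gks a (v + 1) - gks a v) := by
    intro v
    set s := Real.sqrt ((v + 1 : ℕ) : ℝ) with hs
    have hs0 : 0 < s := by rw [hs]; positivity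
    have hs2 : ((v + 1 : ℕ) : ℝ) = s ^ 2 := by rw [hs, Real.sq_sqrt (by positivity)]
    have hb0 : 0 < a * s := by positivity
    have hb : ((v + 1 : ℕ) : ℝ) ^ 2 * w = (a * s) ^ 4 := by rw [hs2, ← haw]; ring
    unfold kap
    rw [hb]
    have h1 : ((a * s) ^ 4) ^ (-(1 / 8) : ℝ) = (a * s)⁻¹ * (a * s) ^ (1 / 2 : ℝ) := by
      rw [← Real.rpow_natCast (a * s) 4, ← Real.rpow_mul hb0.le, ← Real.rpow_neg_one,
        ← Real.rpow_add hb0]
      norm_num
    rw [h1]
    have h3 := gks_step a ha0 v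
    rw [← hs] at h3
    have h4 := exp_b4 (a * s) hb0
    have h5 : (a * s) ^ (1 / 2 : ℝ) * Real.exp (-((a * s) ^ 4)) ≤ 8 / (1 + a * s) ^ 2 := by
      rw [le_div_iff₀ (by positivity)]
      linarith
    calc (a * s)⁻¹ * (a * s) ^ (1 / 2 : ℝ) * Real.exp (-((a * s) ^ 4))
        = (a * s)⁻¹ * ((a * s) ^ (1 / 2 : ℝ) * Real.exp (-((a * s) ^ 4))) := by ring
      _ ≤ (a * s)⁻¹ * (8 / (1 + a * s) ^ 2) := by gcongr
      _ = 16 * (a ^ 2)⁻¹ * (a / (2 * s * (1 + a * s) ^ 2)) := by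
          field_simp
          ring
      _ ≤ _ := by gcongr
  have hsum : ∑ n ∈ Icc 1 N, kap ((n : ℝ) ^ 2 * w) =
      ∑ v ∈ range N, kap (((v + 1 : ℕ) : ℝ) ^ 2 * w) := by
    rw [Finset.sum_bij (fun v _ => v - 1)]
    · intro v hv
      have := Finset.mem_Icc.mp hv
      simp only [Finset.mem_range]; omega
    · intro v hv w hw h
      have := Finset.mem_Icc.mp hv
      have := Finset.mem_Icc.mp hw
      omega
    · intro v hv
      exact ⟨v + 1, by simp only [Finset.mem_Icc]; have := Finset.mem_range.mp hv; omega, by simp⟩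
    · intro v hv
      have := Finset.mem_Icc.mp hv
      have h : v - 1 + 1 = v := by omega
      rw [h]
  rw [hsum, haw2]
  calc ∑ v ∈ range N, kap (((v + 1 : ℕ) : ℝ) ^ 2 * w)
      ≤ ∑ v ∈ range N, 16 * (a ^ 2)⁻¹ * (gks a (v + 1) - gks a v) :=
        Finset.sum_le_sum (fun v _ => key v)
    _ = 16 * (a ^ 2)⁻¹ * (gks a N - gks a 0) := by
        rw [← Finset.mul_sum, Finset.sum_range_sub]
    _ ≤ 16 * (a ^ 2)⁻¹ * 1 := by
        gcongr
        have h0 : gks a 0 = 0 := by simp [gks]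
        rw [h0, sub_zero, gks, div_le_one (by positivity)]
        linarith
    _ = 16 * (a ^ 2)⁻¹ := by ring

/-- the sum over all odd `n` -/
def GG (p : Par) (N d : ℕ) (w : ℝ) : ℝ :=
  ∑ n ∈ (Icc 1 N).filter (fun n => Odd n), js (p.e * (d : ℤ)) n * kw p N w n

lemma js_abs (k : ℤ) (n : ℕ) : |js k n| ≤ 1 := by
  unfold js
  rcases jacobiSym.trichotomy k n with h | h | h <;> rw [h] <;> simp

lemma GG_bd (C : ℝ) (hC : 1 ≤ C) (p : Par) (N d : ℕ) (w : ℝ) (hw : 0 < w)
    (hk : ∀ n : ℕ, 1 ≤ n → |kw p N w n| ≤ C * kap ((n : ℝ) ^ 2 * w)) :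
    |GG p N d w| ≤ 16 * C * w ^ (-(1 / 2) : ℝ) := by
  unfold GG
  calc |∑ n ∈ (Icc 1 N).filter (fun n => Odd n), js (p.e * (d : ℤ)) n * kw p N w n|
      ≤ ∑ n ∈ (Icc 1 N).filter (fun n => Odd n), |js (p.e * (d : ℤ)) n * kw p N w n| :=
        Finset.abs_sum_le_sum_abs _ _
    _ ≤ ∑ n ∈ (Icc 1 N).filter (fun n => Odd n), C * kap ((n : ℝ) ^ 2 * w) := by
        apply Finset.sum_le_sum
        intro n hn
        have hn1 := (Finset.mem_Icc.mp (Finset.mem_filter.mp hn).1).1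
        rw [abs_mul]
        calc |js (p.e * (d : ℤ)) n| * |kw p N w n| ≤ 1 * |kw p N w n| := by
              gcongr
              exact js_abs _ _
          _ ≤ _ := by rw [one_mul]; exact hk n hn1
    _ ≤ ∑ n ∈ Icc 1 N, C * kap ((n : ℝ) ^ 2 * w) := by
        apply Finset.sum_le_sum_of_subset_of_nonneg (Finset.filter_subset _ _)
        intro n _ _
        unfold kap
        positivity
    _ = C * ∑ n ∈ Icc 1 N, kap ((n : ℝ) ^ 2 * w) := by rw [Finset.mul_sum]
    _ ≤ C * (16 * w ^ (-(1 / 2) : ℝ)) := by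
        gcongr
        exact kap_sum w N hw
    _ = _ := by ring

lemma form (igf : S_IGF) (p : Par) (hp : p.ok) (N d : ℕ) (z : ℝ) (hz : 0 < z) :
    IntegrableOn (fun w : ℝ => w ^ (-(3 / 4) : ℝ) * GG p N d w) (Set.Ioi z) ∧
    EN p N d z + Pool.Agent.Q122.FM.ES p N d z = ∫ w in Set.Ioi z, w ^ (-(3 / 4) : ℝ) * GG p N d w := by
  obtain ⟨_, _, ha, _⟩ := hp
  have hm : ∀ (i n : ℕ), n ∈ (Icc 1 N).filter (fun n => Odd n) →
      (1 : ℝ) ≤ (2 : ℝ) ^ i * n := by
    intro i n hn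
    have h1 := Finset.mem_Icc.mp (Finset.mem_filter.mp hn).1
    have h2 : (1 : ℝ) ≤ 2 ^ i := one_le_pow₀ (by norm_num)
    have h3 : (1 : ℝ) ≤ n := by exact_mod_cast h1.1
    nlinarith
  have hfun : ∀ w : ℝ, w ^ (-(3 / 4) : ℝ) * GG p N d w =
      ∑ i ∈ range N, ∑ n ∈ (Icc 1 N).filter (fun n => Odd n),
        (p.η ^ i * js (p.e * (d : ℤ)) n) * (w ^ (-(3 / 4) : ℝ) *
          (((2 : ℝ) ^ i * n) ^ p.a * w ^ ((p.a : ℝ) / 2) *
            Real.exp (-(Real.pi * ((2 : ℝ) ^ i * n) ^ 2 * w)))) := by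
    intro w
    unfold GG kw
    rw [Finset.sum_comm, Finset.mul_sum]
    apply Finset.sum_congr rfl
    intro n _
    rw [Finset.mul_sum, Finset.mul_sum]
    apply Finset.sum_congr rfl
    intro i _
    ring
  have hsum : EN p N d z + Pool.Agent.Q122.FM.ES p N d z = ∑ i ∈ range N, ∑ n ∈ (Icc 1 N).filter (fun n => Odd n),
      p.η ^ i * js (p.e * (d : ℤ)) n / Real.sqrt ((2 : ℝ) ^ i * n) *
        IG p.a (((2 : ℝ) ^ i * n) ^ 2 * z) := by
    unfold EN Pool.Agent.Q122.FM.ES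
    rw [← Finset.sum_add_distrib]
    apply Finset.sum_congr rfl
    intro i _
    rw [← Finset.sum_filter_add_sum_filter_not ((Icc 1 N).filter (fun n => Odd n))
      (fun n => ¬ IsSquare n), Finset.filter_filter, Finset.filter_filter]
    congr 1
    apply Finset.sum_congr _ (fun _ _ => rfl)
    ext n
    simp only [Finset.mem_filter, not_not]
  rw [hsum]
  simp only [hfun]
  constructor
  · apply integrable_finsetSum
    intro i _
    apply integrable_finsetSum
    intro n hn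
    exact (igf p.a ha ((2 : ℝ) ^ i * n) z (hm i n hn) hz).1.const_mul _
  · rw [integral_finsetSum]
    · apply Finset.sum_congr rfl
      intro i _
      rw [integral_finsetSum]
      · apply Finset.sum_congr rfl
        intro n hn
        rw [integral_const_mul, ← (igf p.a ha ((2 : ℝ) ^ i * n) z (hm i n hn) hz).2]
        ring
      · intro n hn
        exact (igf p.a ha ((2 : ℝ) ^ i * n) z (hm i n hn) hz).1.const_mul _
    · intro i _
      apply integrable_finsetSum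
      intro n hn
      exact (igf p.a ha ((2 : ℝ) ^ i * n) z (hm i n hn) hz).1.const_mul _

lemma pw_bd (C : ℝ) (hC : 1 ≤ C) (p : Par) (N d : ℕ) (w : ℝ) (hw : 0 < w)
    (hk : ∀ n : ℕ, 1 ≤ n → |kw p N w n| ≤ C * kap ((n : ℝ) ^ 2 * w)) :
    ‖w ^ (-(3 / 4) : ℝ) * GG p N d w‖ ≤ 16 * C * w ^ (-(5 / 4) : ℝ) := by
  rw [norm_mul, Real.norm_of_nonneg (by positivity), Real.norm_eq_abs]
  have h1 := GG_bd C hC p N d w hw hk
  calc w ^ (-(3 / 4) : ℝ) * |GG p N d w| ≤ w ^ (-(3 / 4) : ℝ) * (16 * C * w ^ (-(1 / 2) : ℝ)) := by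
        gcongr
    _ = 16 * C * (w ^ (-(3 / 4) : ℝ) * w ^ (-(1 / 2) : ℝ)) := by ring
    _ = 16 * C * w ^ (-(5 / 4) : ℝ) := by rw [← Real.rpow_add hw]; norm_num

theorem t_FRZ (igf : S_IGF) (ker : S_KER) : S_FRZ := by
  obtain ⟨C, hC, hker⟩ := ker.1
  refine ⟨64 * C, by linarith, ?_⟩
  intro p hp N d z z' hz' hzz hz1
  have hz : 0 < z := lt_of_lt_of_le hz' hzz
  obtain ⟨i1, e1⟩ := form igf p hp N d z hz
  obtain ⟨i2, e2⟩ := form igf p hp N d z' hz'
  have hbd : ∀ w : ℝ, 0 < w → ‖w ^ (-(3 / 4) : ℝ) * GG p N d w‖ ≤ 16 * C * w ^ (-(5 / 4) : ℝ) :=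
    fun w hw => pw_bd C hC p N d w hw (fun n hn => hker p hp N n w hn hw)
  constructor
  · rw [e1, e2]
    have h1 : (∫ w in Set.Ioi z', w ^ (-(3 / 4) : ℝ) * GG p N d w) =
        (∫ w in Set.Ioc z' z, w ^ (-(3 / 4) : ℝ) * GG p N d w) +
          ∫ w in Set.Ioi z, w ^ (-(3 / 4) : ℝ) * GG p N d w := by
      rw [← setIntegral_union (Set.Ioc_disjoint_Ioi le_rfl) measurableSet_Ioi
        (i2.mono_set Set.Ioc_subset_Ioi_self) i1, Set.Ioc_union_Ioi_eq_Ioi hzz]
    have h2 : (∫ w in Set.Ioi z, w ^ (-(3 / 4) : ℝ) * GG p N d w) -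
        (∫ w in Set.Ioi z', w ^ (-(3 / 4) : ℝ) * GG p N d w) =
        -(∫ w in Set.Ioc z' z, w ^ (-(3 / 4) : ℝ) * GG p N d w) := by
      rw [h1]; ring
    rw [h2, abs_neg, ← Real.norm_eq_abs]
    have hint : IntervalIntegrable (fun w : ℝ => 16 * C * w ^ (-(5 / 4) : ℝ)) volume z' z := by
      apply IntervalIntegrable.const_mul
      apply intervalIntegral.intervalIntegrable_rpow
      right
      rw [Set.uIcc_of_le hzz]
      intro h
      exact absurd h.1 (not_le.mpr hz')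
    calc ‖∫ w in Set.Ioc z' z, w ^ (-(3 / 4) : ℝ) * GG p N d w‖
        ≤ ∫ w in Set.Ioc z' z, 16 * C * w ^ (-(5 / 4) : ℝ) := by
          apply norm_integral_le_of_norm_le
          · exact (intervalIntegrable_iff_integrableOn_Ioc_of_le hzz).mp hint
          · rw [ae_restrict_iff' measurableSet_Ioc]
            filter_upwards with w hw
            exact hbd w (lt_trans hz' hw.1)
      _ = ∫ w in z'..z, 16 * C * w ^ (-(5 / 4) : ℝ) := by
          rw [intervalIntegral.integral_of_le hzz]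
      _ = 64 * C * (z' ^ (-(1 / 4) : ℝ) - z ^ (-(1 / 4) : ℝ)) := by
          rw [intervalIntegral.integral_const_mul, integral_rpow]
          · have : (-(5 / 4) + 1 : ℝ) = -(1 / 4) := by norm_num
            rw [this]
            ring
          · right
            constructor
            · norm_num
            · rw [Set.uIcc_of_le hzz]
              intro h
              exact absurd h.1 (not_le.mpr hz')
  · rw [e1, ← Real.norm_eq_abs]
    calc ‖∫ w in Set.Ioi z, w ^ (-(3 / 4) : ℝ) * GG p N d w‖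
        ≤ ∫ w in Set.Ioi z, 16 * C * w ^ (-(5 / 4) : ℝ) := by
          apply norm_integral_le_of_norm_le
          · apply Integrable.const_mul
            exact integrableOn_Ioi_rpow_of_lt (by norm_num) hz
          · rw [ae_restrict_iff' measurableSet_Ioi]
            filter_upwards with w hw
            exact hbd w (lt_trans hz hw)
      _ = 64 * C * z ^ (-(1 / 4) : ℝ) := by
          rw [integral_const_mul, integral_Ioi_rpow_of_lt (by norm_num) hz]
          have : (-(5 / 4) + 1 : ℝ) = -(1 / 4) := by norm_num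
          rw [this]
          ring

end

end Pool.Agent.Q275.FM
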