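import Pool.Agent.Q122.FM.Stm

set_option autoImplicit false

/-!
Project FM (helper122), job HW: windows in a residue class.
-/

namespace Pool.Agent.Q275.FM

open Finset Filter Topology MeasureTheory Pool.Agent.H306R2.RZ Pool.Agent.H306R2.RG
open Pool.Agent.Q122.FM

noncomputable section

lemma hermite (q h : ℕ) (hq : 0 < q) : ∑ t ∈ range q, (t + h) / q = h := by
  induction h with
  | zero =>
    rw [Finset.sum_eq_zero]
    intro t ht
    exact Nat.div_eq_of_lt (by simpa using ht)
  | succ h ih =>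
    have h1 : ∑ t ∈ range (q + 1), (t + h) / q = h + (q + h) / q := by
      rw [Finset.sum_range_succ, ih]
    have h2 : ∑ t ∈ range (q + 1), (t + h) / q =
        ∑ t ∈ range q, (t + (h + 1)) / q + (0 + h) / q := by
      rw [Finset.sum_range_succ']
      congr 1
      apply Finset.sum_congr rfl
      intro t _
      congr 1
      ring
    have h3 : (q + h) / q = h / q + 1 := by
      rw [Nat.add_div_left _ hq]
    rw [zero_add] at h2
    omega

lemma hw_inner (q c0 y h : ℕ) (g : ℤ → ℝ) (hq : c0 < q) :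
    ∑ d ∈ (Ioc y (y + h)).filter (fun d => d % q = c0), g d =
      ∑ j ∈ Ioc (((y : ℤ) - c0) / q) (((y : ℤ) - c0) / q +
        (((((((y : ℤ) - c0) % q).toNat + h) / q : ℕ)) : ℤ)), g (q * j + c0) := by
  have hq0 : (0 : ℤ) < q := by omega
  set u : ℤ := ((y : ℤ) - c0) / q with hu
  set t : ℕ := (((y : ℤ) - c0) % q).toNat with ht
  have ht0 : 0 ≤ ((y : ℤ) - c0) % q := Int.emod_nonneg _ (by omega)
  have ht1 : ((y : ℤ) - c0) % q < q := Int.emod_lt_of_pos _ hq0
  have htc : (t : ℤ) = ((y : ℤ) - c0) % q := by rw [ht]; exact Int.toNat_of_nonneg ht0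
  have hy : (y : ℤ) = q * u + t + c0 := by
    have := Int.emod_add_mul_ediv ((y : ℤ) - c0) q
    rw [htc, hu]
    linarith
  have hu1 : -1 ≤ u := by
    by_contra hc
    push Not at hc
    have : q * u ≤ q * (-2) := by
      apply mul_le_mul_of_nonneg_left _ hq0.le
      omega
    have h2 : (c0 : ℤ) < q := by exact_mod_cast hq
    have h3 : (0 : ℤ) ≤ y := Int.natCast_nonneg y
    rw [htc] at hy
    nlinarith
  set k : ℕ := (t + h) / q with hk
  have hk1 : (q : ℤ) * k ≤ t + h := by
    have := Nat.div_mul_le_self (t + h) q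
    rw [← hk] at this
    have h2 : ((k * q : ℕ) : ℤ) ≤ ((t + h : ℕ) : ℤ) := by exact_mod_cast this
    push_cast at h2
    linarith
  have hk2 : (t : ℤ) + h < q * (k + 1) := by
    have := Nat.lt_mul_div_succ (t + h) (show 0 < q by omega)
    rw [← hk] at this
    exact_mod_cast this
  have htq : (t : ℤ) < q := by rw [htc]; exact ht1
  symm
  apply Finset.sum_bij (fun (j : ℤ) _ => (q * j + c0).toNat)
  · intro j hj
    rw [Finset.mem_Ioc] at hj
    have hj0 : 0 ≤ j := by omega
    have h1 : 0 ≤ q * j := mul_nonneg hq0.le hj0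
    have h2 : ((q * j + c0).toNat : ℤ) = q * j + c0 := Int.toNat_of_nonneg (by omega)
    have h3 : q * (u + 1) ≤ q * j := mul_le_mul_of_nonneg_left (by omega) hq0.le
    have h4 : q * j ≤ q * (u + k) := mul_le_mul_of_nonneg_left (by omega) hq0.le
    simp only [Finset.mem_filter, Finset.mem_Ioc]
    refine ⟨⟨?_, ?_⟩, ?_⟩
    · zify
      rw [h2]
      linarith
    · zify
      rw [h2]
      linarith
    · zify
      rw [h2]
      rw [Int.mul_add_emod_self_left]
      exact Int.emod_eq_of_lt (by omega) (by exact_mod_cast hq)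
  · intro j hj j' hj' he
    rw [Finset.mem_Ioc] at hj hj'
    have h1 : 0 ≤ q * j := mul_nonneg hq0.le (by omega)
    have h1' : 0 ≤ q * j' := mul_nonneg hq0.le (by omega)
    have h2 : q * j = q * j' := by omega
    exact mul_left_cancel₀ (by omega) h2
  · intro d hd
    simp only [Finset.mem_filter, Finset.mem_Ioc] at hd
    obtain ⟨⟨h1, h2⟩, h3⟩ := hd
    have h4 : (d : ℤ) = q * ((d / q : ℕ) : ℤ) + c0 := by
      have := Nat.div_add_mod d q
      rw [h3] at this
      exact_mod_cast this.symm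
    have h1' : (y : ℤ) < d := by exact_mod_cast h1
    have h2' : (d : ℤ) ≤ y + h := by exact_mod_cast h2
    refine ⟨((d / q : ℕ) : ℤ), ?_, ?_⟩
    · rw [Finset.mem_Ioc]
      constructor
      · by_contra hc
        push Not at hc
        have : q * ((d / q : ℕ) : ℤ) ≤ q * u := mul_le_mul_of_nonneg_left hc hq0.le
        linarith [Int.natCast_nonneg t]
      · by_contra hc
        push Not at hc
        have : q * (u + k + 1) ≤ q * ((d / q : ℕ) : ℤ) :=
          mul_le_mul_of_nonneg_left (by omega) hq0.le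
        linarith
    · rw [← h4]
      simp
  · intro j hj
    rw [Finset.mem_Ioc] at hj
    have h1 : 0 ≤ q * j := mul_nonneg hq0.le (by omega)
    have h2 : ((q * j + c0).toNat : ℤ) = q * j + c0 := Int.toNat_of_nonneg (by omega)
    rw [h2]

theorem t_HW : S_HW := by
  intro q c0 Y h g hq
  have hq0 : 0 < q := by omega
  have hq0' : (0 : ℤ) < q := by exact_mod_cast hq0
  refine ⟨hermite q h hq0, ?_⟩
  set F : ℕ × ℤ → ℝ := fun x =>
    (∑ j ∈ Ioc x.2 (x.2 + (((x.1 + h) / q : ℕ) : ℤ)), g (q * j + c0)) ^ 2 with hF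
  set φ : ℕ → ℕ × ℤ := fun y => ((((y : ℤ) - c0) % q).toNat, ((y : ℤ) - c0) / q) with hφ
  have h1 : ∑ y ∈ range Y, (∑ d ∈ (Ioc y (y + h)).filter (fun d => d % q = c0), g d) ^ 2 =
      ∑ y ∈ range Y, F (φ y) := by
    apply Finset.sum_congr rfl
    intro y _
    rw [hw_inner q c0 y h g hq]
  have h2 : ∑ t ∈ range q, ∑ u ∈ Ico (-1 : ℤ) (-1 + ((Y / q + 2 : ℕ) : ℤ)),
      (∑ j ∈ Ioc u (u + (((t + h) / q : ℕ) : ℤ)), g (q * j + c0)) ^ 2 =
      ∑ x ∈ range q ×ˢ Ico (-1 : ℤ) (-1 + ((Y / q + 2 : ℕ) : ℤ)), F x := by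
    rw [Finset.sum_product]
  rw [h1, h2]
  have hinj : Set.InjOn φ (range Y : Finset ℕ) := by
    intro y _ y' _ he
    simp only [hφ, Prod.mk.injEq] at he
    have e1 : ((y : ℤ) - c0) % q = ((y' : ℤ) - c0) % q := by
      have a1 := Int.emod_nonneg ((y : ℤ) - c0) hq0'.ne'
      have a2 := Int.emod_nonneg ((y' : ℤ) - c0) hq0'.ne'
      omega
    have b1 := Int.emod_add_mul_ediv ((y : ℤ) - c0) q
    have b2 := Int.emod_add_mul_ediv ((y' : ℤ) - c0) q
    rw [e1, he.2] at b1
    omega
  rw [← Finset.sum_image (f := F) hinj]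
  apply Finset.sum_le_sum_of_subset_of_nonneg
  · intro x hx
    rw [Finset.mem_image] at hx
    obtain ⟨y, hy, rfl⟩ := hx
    rw [Finset.mem_range] at hy
    simp only [hφ, Finset.mem_product, Finset.mem_range, Finset.mem_Ico]
    have a1 := Int.emod_nonneg ((y : ℤ) - c0) hq0'.ne'
    have a2 := Int.emod_lt_of_pos ((y : ℤ) - c0) hq0'
    refine ⟨by omega, ?_, ?_⟩
    · rw [Int.le_ediv_iff_mul_le hq0']
      omega
    · have h3 : ((y : ℤ) - c0) / q ≤ (y : ℤ) / q := Int.ediv_le_ediv hq0' (by omega)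
      have h4 : (y : ℤ) / q ≤ (Y : ℤ) / q := Int.ediv_le_ediv hq0' (by omega)
      push_cast
      omega
  · intro x _ _
    simp only [hF]
    positivity

end

end Pool.Agent.Q275.FM
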