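import Pool.Agent.Q122.FM.Stm

set_option autoImplicit false

/-!
Project FM (helper122), job IGF: the incomplete Gamma function as an integral over `w`.
-/

namespace Pool.Agent.Q275.FM

open Finset Filter Topology MeasureTheory Pool.Agent.H306R2.RZ Pool.Agent.H306R2.RG
open Pool.Agent.Q122.FM

noncomputable section

/-- the pointwise identity of the substitution -/
lemma igf_pt (a : ℕ) (m w : ℝ) (hm : 1 ≤ m) (hw : 0 < w) :
    m ^ 2 / Real.sqrt m * ((m ^ 2 * w) ^ ((a : ℝ) / 2 - 3 / 4) *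
      Real.exp (-(Real.pi * (m ^ 2 * w)))) =
    w ^ (-(3 / 4) : ℝ) * (m ^ a * w ^ ((a : ℝ) / 2) * Real.exp (-(Real.pi * m ^ 2 * w))) := by
  have hm0 : 0 < m := by linarith
  have h1 : (m ^ 2 * w) ^ ((a : ℝ) / 2 - 3 / 4) =
      m ^ ((a : ℝ) - 3 / 2) * (w ^ ((a : ℝ) / 2) * w ^ (-(3 / 4) : ℝ)) := by
    rw [Real.mul_rpow (by positivity) hw.le, ← Real.rpow_natCast m 2, ← Real.rpow_mul hm0.le,
      ← Real.rpow_add hw]
    congr 1
    · congr 1
      push_cast
      ring
  have h2 : m ^ 2 / Real.sqrt m * m ^ ((a : ℝ) - 3 / 2) = m ^ a := by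
    rw [Real.sqrt_eq_rpow, ← Real.rpow_natCast m 2, ← Real.rpow_sub hm0, ← Real.rpow_add hm0,
      ← Real.rpow_natCast m a]
    congr 1
    push_cast
    ring
  rw [h1, ← h2]
  have h3 : Real.pi * (m ^ 2 * w) = Real.pi * m ^ 2 * w := by ring
  rw [h3]
  ring

lemma igf_int (a : ℕ) (v : ℝ) (hv : 0 < v) :
    IntegrableOn (fun t : ℝ => t ^ ((a : ℝ) / 2 - 3 / 4) * Real.exp (-(Real.pi * t)))
      (Set.Ioi v) := by
  have h := integrableOn_rpow_mul_exp_neg_mul_rpow (s := (a : ℝ) / 2 - 3 / 4) (p := 1)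
    (b := Real.pi) (by
      have : (0 : ℝ) ≤ a := Nat.cast_nonneg a
      linarith) one_pos Real.pi_pos
  refine (h.mono_set (Set.Ioi_subset_Ioi hv.le)).congr_fun ?_ measurableSet_Ioi
  intro t _
  simp only [Real.rpow_one, neg_mul]

theorem t_IGF : S_IGF := by
  intro a _ m z hm hz
  have hm0 : 0 < m := by linarith
  have hm2 : 0 < m ^ 2 := by positivity
  have hi := igf_int a (m ^ 2 * z) (by positivity)
  have hi2 : IntegrableOn (fun w : ℝ => m ^ 2 / Real.sqrt m * ((m ^ 2 * w) ^ ((a : ℝ) / 2 - 3 / 4) *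
      Real.exp (-(Real.pi * (m ^ 2 * w))))) (Set.Ioi z) := by
    apply Integrable.const_mul
    have := (integrableOn_Ioi_comp_mul_left_iff
      (fun t : ℝ => t ^ ((a : ℝ) / 2 - 3 / 4) * Real.exp (-(Real.pi * t))) z hm2).mpr hi
    exact this
  constructor
  · refine hi2.congr_fun ?_ measurableSet_Ioi
    intro w hw
    exact igf_pt a m w hm (lt_trans hz hw)
  · have h1 : IG a (m ^ 2 * z) = m ^ 2 * ∫ w in Set.Ioi z,
        ((m ^ 2 * w) ^ ((a : ℝ) / 2 - 3 / 4) * Real.exp (-(Real.pi * (m ^ 2 * w)))) := by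
      have := integral_comp_mul_left_Ioi
        (fun t : ℝ => t ^ ((a : ℝ) / 2 - 3 / 4) * Real.exp (-(Real.pi * t))) z hm2
      simp only [smul_eq_mul] at this
      rw [this, IG]
      field_simp
    rw [h1, ← mul_assoc, ← integral_const_mul]
    apply setIntegral_congr_fun measurableSet_Ioi
    intro w hw
    have := igf_pt a m w hm (lt_trans hz hw)
    simp only
    rw [← this]
    ring

end

end Pool.Agent.Q275.FM
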