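import Pool.Agent.Q122.FM.Stm

set_option autoImplicit false

/-!
Project FM (helper122), job KER: the kernel.
-/

namespace Pool.Agent.Q275.FM

open Finset Filter Topology MeasureTheory Pool.Agent.H306R2.RZ Pool.Agent.H306R2.RG
open Pool.Agent.Q122.FM

noncomputable section

/-- the ratio `4^{-1/8}` -/
def rr : ℝ := (4 : ℝ) ^ (-(1 / 8) : ℝ)

lemma rr_pos : 0 < rr := by unfold rr; positivity

lemma rr_lt : rr < 1 := by
  unfold rr
  exact Real.rpow_lt_one_of_one_lt_of_neg (by norm_num) (by norm_num)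

lemma pow_eight (a : ℕ) (ha : a = 0 ∨ a = 1) (y : ℝ) (hy : 0 < y) :
    y ^ ((a : ℝ) / 2) * Real.exp (-(Real.pi * y)) ≤ y ^ (-(1 / 8) : ℝ) * Real.exp (-y) := by
  have h1 : y ^ ((a : ℝ) / 2) = y ^ (-(1 / 8) : ℝ) * y ^ ((a : ℝ) / 2 + 1 / 8) := by
    rw [← Real.rpow_add hy]; congr 1; ring
  have h2 : y ^ ((a : ℝ) / 2 + 1 / 8) ≤ Real.exp y := by
    have h3 : y ^ ((a : ℝ) / 2 + 1 / 8) ≤ 1 + y := by
      rcases le_total y 1 with h | h
      · have : y ^ ((a : ℝ) / 2 + 1 / 8) ≤ 1 := Real.rpow_le_one hy.le h (by positivity)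
        linarith
      · have : y ^ ((a : ℝ) / 2 + 1 / 8) ≤ y ^ (1 : ℝ) := by
          apply Real.rpow_le_rpow_of_exponent_le h
          rcases ha with rfl | rfl <;> norm_num
        rw [Real.rpow_one] at this
        linarith
    linarith [Real.add_one_le_exp y]
  have h4 : Real.exp y * Real.exp (-(Real.pi * y)) ≤ Real.exp (-y) := by
    rw [← Real.exp_add]
    apply Real.exp_le_exp.mpr
    nlinarith [Real.pi_gt_three]
  rw [h1, mul_assoc]
  apply mul_le_mul_of_nonneg_left _ (by positivity)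
  calc y ^ ((a : ℝ) / 2 + 1 / 8) * Real.exp (-(Real.pi * y))
      ≤ Real.exp y * Real.exp (-(Real.pi * y)) := by gcongr
    _ ≤ _ := h4

lemma kw_bd (p : Par) (hp : p.ok) (I n : ℕ) (w : ℝ) (hn : 1 ≤ n) (hw : 0 < w) :
    |kw p I w n| ≤ 1 / (1 - rr) * kap ((n : ℝ) ^ 2 * w) := by
  obtain ⟨_, _, ha, hη⟩ := hp
  have hn0 : (0 : ℝ) < n := by exact_mod_cast hn
  have hx : 0 < (n : ℝ) ^ 2 * w := by positivity
  have hη1 : |p.η| ≤ 1 := by
    rcases hη with h | h | h <;> rw [h] <;> simp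
  have hterm : ∀ i : ℕ, |p.η ^ i * (((2 : ℝ) ^ i * n) ^ p.a * w ^ ((p.a : ℝ) / 2) *
      Real.exp (-(Real.pi * ((2 : ℝ) ^ i * n) ^ 2 * w)))| ≤
      rr ^ i * kap ((n : ℝ) ^ 2 * w) := by
    intro i
    set m : ℝ := (2 : ℝ) ^ i * n with hm
    have hm0 : 0 < m := by rw [hm]; positivity
    have hy : 0 < m ^ 2 * w := by positivity
    have h1 : m ^ p.a * w ^ ((p.a : ℝ) / 2) = (m ^ 2 * w) ^ ((p.a : ℝ) / 2) := by
      rw [Real.mul_rpow (by positivity) hw.le, ← Real.rpow_natCast m 2, ← Real.rpow_mul hm0.le,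
        ← Real.rpow_natCast m p.a]
      congr 2
      push_cast
      ring
    have h2 : Real.pi * m ^ 2 * w = Real.pi * (m ^ 2 * w) := by ring
    rw [abs_mul, abs_pow, h1, h2, abs_of_nonneg (by positivity :
      0 ≤ (m ^ 2 * w) ^ ((p.a : ℝ) / 2) * Real.exp (-(Real.pi * (m ^ 2 * w))))]
    have h3 := pow_eight p.a ha (m ^ 2 * w) hy
    have h4 : |p.η| ^ i ≤ 1 := pow_le_one₀ (abs_nonneg _) hη1
    have h5 : (m ^ 2 * w) ^ (-(1 / 8) : ℝ) = rr ^ i * ((n : ℝ) ^ 2 * w) ^ (-(1 / 8) : ℝ) := by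
      have : m ^ 2 * w = (4 : ℝ) ^ i * ((n : ℝ) ^ 2 * w) := by
        rw [hm, mul_pow, ← pow_mul, mul_comm i 2, pow_mul]; norm_num; ring
      have h6 : ((4 : ℝ) ^ i) ^ (-(1 / 8) : ℝ) = rr ^ i := by
        rw [rr, ← Real.rpow_natCast (4 : ℝ) i, ← Real.rpow_mul (by norm_num : (0 : ℝ) ≤ 4),
          ← Real.rpow_natCast ((4 : ℝ) ^ (-(1 / 8) : ℝ)) i,
          ← Real.rpow_mul (by norm_num : (0 : ℝ) ≤ 4), mul_comm]
      rw [this, Real.mul_rpow (by positivity) (by positivity), h6]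
    have h6 : (n : ℝ) ^ 2 * w ≤ m ^ 2 * w := by
      have : (1 : ℝ) ≤ 2 ^ i := one_le_pow₀ (by norm_num)
      have : (n : ℝ) ≤ m := by rw [hm]; nlinarith
      gcongr
    calc |p.η| ^ i * ((m ^ 2 * w) ^ ((p.a : ℝ) / 2) * Real.exp (-(Real.pi * (m ^ 2 * w))))
        ≤ 1 * ((m ^ 2 * w) ^ (-(1 / 8) : ℝ) * Real.exp (-(m ^ 2 * w))) := by gcongr
      _ ≤ 1 * ((m ^ 2 * w) ^ (-(1 / 8) : ℝ) * Real.exp (-((n : ℝ) ^ 2 * w))) := by gcongr
      _ = rr ^ i * kap ((n : ℝ) ^ 2 * w) := by rw [h5, kap]; ring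
  have hk : 0 ≤ kap ((n : ℝ) ^ 2 * w) := by unfold kap; positivity
  have hr1 : 0 < 1 - rr := by linarith [rr_lt]
  calc |kw p I w n| ≤ ∑ i ∈ range I, |p.η ^ i * (((2 : ℝ) ^ i * n) ^ p.a * w ^ ((p.a : ℝ) / 2) *
      Real.exp (-(Real.pi * ((2 : ℝ) ^ i * n) ^ 2 * w)))| := Finset.abs_sum_le_sum_abs _ _
    _ ≤ ∑ i ∈ range I, rr ^ i * kap ((n : ℝ) ^ 2 * w) := Finset.sum_le_sum (fun i _ => hterm i)
    _ = (∑ i ∈ range I, rr ^ i) * kap ((n : ℝ) ^ 2 * w) := by rw [Finset.sum_mul]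
    _ ≤ 1 / (1 - rr) * kap ((n : ℝ) ^ 2 * w) := by
        gcongr
        rw [le_div_iff₀ hr1]
        have h := mul_neg_geom_sum rr I
        have : 0 < rr ^ I := pow_pos rr_pos I
        linarith

theorem t_KER (igf : S_IGF) : S_KER := by
  refine ⟨⟨1 / (1 - rr), ?_, fun p hp I n w hn hw => kw_bd p hp I n w hn hw⟩, ?_⟩
  · rw [le_div_iff₀ (by linarith [rr_lt])]
    linarith [rr_pos]
  · intro p hp N d z hz
    obtain ⟨_, _, ha, _⟩ := hp
    have hm : ∀ (i n : ℕ), n ∈ (Icc 1 N).filter (fun n => Odd n ∧ ¬ IsSquare n) →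
        (1 : ℝ) ≤ (2 : ℝ) ^ i * n := by
      intro i n hn
      have h1 := Finset.mem_Icc.mp (Finset.mem_filter.mp hn).1
      have h2 : (1 : ℝ) ≤ 2 ^ i := one_le_pow₀ (by norm_num)
      have h3 : (1 : ℝ) ≤ n := by exact_mod_cast h1.1
      nlinarith
    have hfun : ∀ w : ℝ, w ^ (-(3 / 4) : ℝ) * N1 p.e (kw p N w) N d =
        ∑ i ∈ range N, ∑ n ∈ (Icc 1 N).filter (fun n => Odd n ∧ ¬ IsSquare n),
          (p.η ^ i * js (p.e * (d : ℤ)) n) * (w ^ (-(3 / 4) : ℝ) *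
            (((2 : ℝ) ^ i * n) ^ p.a * w ^ ((p.a : ℝ) / 2) *
              Real.exp (-(Real.pi * ((2 : ℝ) ^ i * n) ^ 2 * w)))) := by
      intro w
      unfold N1 kw
      rw [Finset.sum_comm, Finset.mul_sum]
      apply Finset.sum_congr rfl
      intro n _
      rw [Finset.mul_sum, Finset.mul_sum]
      apply Finset.sum_congr rfl
      intro i _
      ring
    simp only [hfun]
    constructor
    · apply integrable_finsetSum
      intro i _
      apply integrable_finsetSum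
      intro n hn
      exact (igf p.a ha ((2 : ℝ) ^ i * n) z (hm i n hn) hz).1.const_mul _
    · rw [integral_finsetSum]
      · unfold EN
        apply Finset.sum_congr rfl
        intro i _
        rw [integral_finsetSum]
        · apply Finset.sum_congr rfl
          intro n hn
          rw [integral_const_mul, ← (igf p.a ha ((2 : ℝ) ^ i * n) z (hm i n hn) hz).2]
          ring
        · intro n hn
          exact (igf p.a ha ((2 : ℝ) ^ i * n) z (hm i n hn) hz).1.const_mul _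
      · intro i _
        apply integrable_finsetSum
        intro n hn
        exact (igf p.a ha ((2 : ℝ) ^ i * n) z (hm i n hn) hz).1.const_mul _

end

end Pool.Agent.Q275.FM
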