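import Pool.Agent.Q122.FM.Stm

set_option autoImplicit false

/-!
Project FM (helper122), job KS: the one-variable sum of the kernel.
-/

namespace Pool.Agent.Q275.FM

open Finset Filter Topology MeasureTheory Pool.Agent.H306R2.RZ Pool.Agent.H306R2.RG
open Pool.Agent.Q122.FM

noncomputable section

/-- telescoping function -/
def gks (a : ℝ) (v : ℕ) : ℝ := a * Real.sqrt v / (1 + a * Real.sqrt v)

lemma gks_step (a : ℝ) (ha : 0 < a) (v : ℕ) :
    a / (2 * Real.sqrt ((v + 1 : ℕ) : ℝ) * (1 + a * Real.sqrt ((v + 1 : ℕ) : ℝ)) ^ 2) ≤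
      gks a (v + 1) - gks a v := by
  set s := Real.sqrt ((v + 1 : ℕ) : ℝ) with hs
  set r := Real.sqrt (v : ℝ) with hr
  have hs1 : 0 < s := by rw [hs]; positivity
  have hr0 : 0 ≤ r := Real.sqrt_nonneg _
  have hs2 : s ^ 2 = v + 1 := by
    rw [hs, Real.sq_sqrt (by positivity)]; push_cast; ring
  have hr2 : r ^ 2 = v := by rw [hr, Real.sq_sqrt (by positivity)]
  have hrs : r ≤ s := by
    apply Real.sqrt_le_sqrt; push_cast; linarith
  have hk : 1 ≤ 2 * s * (s - r) := by nlinarith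
  have he : gks a (v + 1) - gks a v = a * (s - r) / ((1 + a * s) * (1 + a * r)) := by
    unfold gks
    rw [← hs, ← hr]
    have h1 : (1 + a * s) ≠ 0 := by positivity
    have h2 : (1 + a * r) ≠ 0 := by positivity
    field_simp
    ring
  rw [he, div_le_div_iff₀ (by positivity) (by positivity)]
  have h3 : (1 + a * r) ≤ (1 + a * s) := by nlinarith
  have h4 : 0 < 1 + a * s := by positivity
  have h5 : 0 < 1 + a * r := by positivity
  calc a * ((1 + a * s) * (1 + a * r)) ≤ a * ((1 + a * s) * (1 + a * s)) := by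
        gcongr
    _ = a * 1 * (1 + a * s) ^ 2 := by ring
    _ ≤ a * (2 * s * (s - r)) * (1 + a * s) ^ 2 := by gcongr
    _ = a * (s - r) * (2 * s * (1 + a * s) ^ 2) := by ring

lemma exp_b (b : ℝ) (hb : 0 ≤ b) : (1 + b) ^ 2 * Real.exp (-(b ^ 8 / 2)) ≤ 8 := by
  rw [Real.exp_neg, ← div_eq_mul_inv, div_le_iff₀ (Real.exp_pos _)]
  have h1 := Real.add_one_le_exp (b ^ 8 / 2)
  rcases le_total b 1 with h | h
  · have : 0 ≤ b ^ 8 := by positivity
    nlinarith
  · have h2 : b ^ 2 ≤ b ^ 8 := pow_le_pow_right₀ h (by norm_num)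
    nlinarith

theorem t_KS : S_KS := by
  refine ⟨16, by norm_num, ?_⟩
  intro z V hz
  set a : ℝ := z ^ (1 / 8 : ℝ) with ha
  have ha0 : 0 < a := by rw [ha]; positivity
  have haz : a ^ 8 = z := by
    rw [ha, ← Real.rpow_natCast, ← Real.rpow_mul hz.le]; norm_num
  have haz2 : z ^ (-(1 / 4) : ℝ) = (a ^ 2)⁻¹ := by
    rw [Real.rpow_neg hz.le, ha, ← Real.rpow_natCast, ← Real.rpow_mul hz.le]; norm_num
  have key : ∀ v : ℕ, kap (z * ((v + 1 : ℕ) : ℝ) ^ 4) ≤
      16 * (a ^ 2)⁻¹ * Real.exp (-(z / 2)) * (gks a (v + 1) - gks a v) := by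
    intro v
    set s := Real.sqrt ((v + 1 : ℕ) : ℝ) with hs
    have hs1 : 1 ≤ s := by
      rw [hs, show (1 : ℝ) = Real.sqrt 1 by simp]
      apply Real.sqrt_le_sqrt; push_cast; linarith [Nat.cast_nonneg (α := ℝ) v]
    have hs0 : 0 < s := by linarith
    have hs2 : ((v + 1 : ℕ) : ℝ) = s ^ 2 := by rw [hs, Real.sq_sqrt (by positivity)]
    have hb : z * ((v + 1 : ℕ) : ℝ) ^ 4 = (a * s) ^ 8 := by rw [hs2, ← haz]; ring
    have hb0 : 0 < a * s := by positivity
    unfold kap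
    rw [hb]
    have h1 : ((a * s) ^ 8) ^ (-(1 / 8) : ℝ) = (a * s)⁻¹ := by
      rw [Real.rpow_neg (by positivity), ← Real.rpow_natCast (a * s) 8, ← Real.rpow_mul hb0.le]
      norm_num
    rw [h1]
    have h2 : Real.exp (-((a * s) ^ 8)) ≤
        Real.exp (-((a * s) ^ 8 / 2)) * Real.exp (-(z / 2)) := by
      rw [← Real.exp_add]
      apply Real.exp_le_exp.mpr
      have : z ≤ (a * s) ^ 8 := by
        rw [mul_pow, haz]
        have : (1 : ℝ) ≤ s ^ 8 := one_le_pow₀ hs1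
        nlinarith
      linarith
    have h3 := gks_step a ha0 v
    rw [← hs] at h3
    have h4 := exp_b (a * s) hb0.le
    have h5 : Real.exp (-((a * s) ^ 8 / 2)) ≤ 8 / (1 + a * s) ^ 2 := by
      rw [le_div_iff₀ (by positivity)]
      linarith
    calc (a * s)⁻¹ * Real.exp (-((a * s) ^ 8))
        ≤ (a * s)⁻¹ * (Real.exp (-((a * s) ^ 8 / 2)) * Real.exp (-(z / 2))) := by gcongr
      _ ≤ (a * s)⁻¹ * (8 / (1 + a * s) ^ 2 * Real.exp (-(z / 2))) := by gcongr
      _ = 16 * (a ^ 2)⁻¹ * Real.exp (-(z / 2)) * (a / (2 * s * (1 + a * s) ^ 2)) := by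
          field_simp
          ring
      _ ≤ _ := by gcongr
  have hsum : ∑ v ∈ Icc 1 V, kap (z * (v : ℝ) ^ 4) =
      ∑ v ∈ range V, kap (z * ((v + 1 : ℕ) : ℝ) ^ 4) := by
    rw [Finset.sum_bij (fun v _ => v - 1)]
    · intro v hv
      have := Finset.mem_Icc.mp hv
      simp only [Finset.mem_range]; omega
    · intro v hv w hw h
      have := Finset.mem_Icc.mp hv
      have := Finset.mem_Icc.mp hw
      omega
    · intro v hv
      exact ⟨v + 1, by simp only [Finset.mem_Icc]; have := Finset.mem_range.mp hv; omega, by simp⟩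
    · intro v hv
      have := Finset.mem_Icc.mp hv
      have h : v - 1 + 1 = v := by omega
      rw [h]
  rw [hsum, haz2]
  calc ∑ v ∈ range V, kap (z * ((v + 1 : ℕ) : ℝ) ^ 4)
      ≤ ∑ v ∈ range V, 16 * (a ^ 2)⁻¹ * Real.exp (-(z / 2)) * (gks a (v + 1) - gks a v) :=
        Finset.sum_le_sum (fun v _ => key v)
    _ = 16 * (a ^ 2)⁻¹ * Real.exp (-(z / 2)) * (gks a V - gks a 0) := by
        rw [← Finset.mul_sum, Finset.sum_range_sub]
    _ ≤ 16 * (a ^ 2)⁻¹ * Real.exp (-(z / 2)) * 1 := by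
        gcongr
        have h0 : gks a 0 = 0 := by simp [gks]
        rw [h0, sub_zero, gks, div_le_one (by positivity)]
        linarith
    _ = 16 * (a ^ 2)⁻¹ * Real.exp (-(z / 2)) := by ring

end

end Pool.Agent.Q275.FM
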