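import Pool.Agent.Q122.FM.Stm

set_option autoImplicit false

/-!
Project FM (helper122), job LMI: two Gamma integrals.
-/

namespace Pool.Agent.Q275.FM

open Finset Filter Topology MeasureTheory Pool.Agent.H306R2.RZ Pool.Agent.H306R2.RG
open Pool.Agent.Q122.FM

noncomputable section

/-- the function of the Mellin transform -/
def fpi (t : ℝ) : ℂ := ((Real.exp (-(Real.pi * t)) : ℝ) : ℂ)

lemma fpi_mellin (s : ℝ) (hs : 0 < s) :
    MellinConvergent (fun t : ℝ => Real.log t • fpi t) (s : ℂ) ∧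
      HasDerivAt (mellin fpi) (mellin (fun t : ℝ => Real.log t • fpi t) (s : ℂ)) (s : ℂ) := by
  apply mellin_hasDerivAt_of_isBigO_rpow (a := s + 1) (b := 0)
  · refine (Continuous.continuousOn ?_).locallyIntegrableOn measurableSet_Ioi
    unfold fpi
    fun_prop
  · rw [← Asymptotics.isBigO_norm_left]
    have h := (isLittleO_exp_neg_mul_rpow_atTop (a := Real.pi) Real.pi_pos (-(s + 1))).isBigO
    refine h.congr_left ?_
    intro t
    unfold fpi
    rw [Complex.norm_real, Real.norm_of_nonneg (Real.exp_pos _).le, neg_mul]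
  · simp
  · rw [← Asymptotics.isBigO_norm_left]
    rw [neg_zero]
    have : (fun t : ℝ => t ^ (0 : ℝ)) = fun _ => (1 : ℝ) := by
      funext t
      exact Real.rpow_zero t
    rw [this]
    apply Asymptotics.isBigO_iff.mpr
    refine ⟨1, ?_⟩
    filter_upwards [self_mem_nhdsWithin] with t ht
    unfold fpi
    rw [norm_norm, Complex.norm_real, Real.norm_of_nonneg (Real.exp_pos _).le, norm_one, mul_one]
    rw [Real.exp_le_one_iff]
    have : 0 < Real.pi * t := mul_pos Real.pi_pos ht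
    linarith
  · simpa using hs

lemma int0 (s : ℝ) (hs : 0 < s) :
    IntegrableOn (fun t : ℝ => t ^ (s - 1) * Real.exp (-(Real.pi * t))) (Set.Ioi 0) := by
  have h := integrableOn_rpow_mul_exp_neg_mul_rpow (s := s - 1) (p := 1)
    (b := Real.pi) (by linarith) one_pos Real.pi_pos
  refine h.congr_fun ?_ measurableSet_Ioi
  intro t _
  simp only [Real.rpow_one, neg_mul]

lemma val0 (s : ℝ) (hs : 0 < s) :
    ∫ t in Set.Ioi (0 : ℝ), t ^ (s - 1) * Real.exp (-(Real.pi * t)) =
      Real.pi ^ (-s) * Real.Gamma s := by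
  rw [Real.integral_rpow_mul_exp_neg_mul_Ioi hs Real.pi_pos, one_div, Real.inv_rpow
    Real.pi_pos.le, Real.rpow_neg Real.pi_pos.le]

lemma mellin_re (s : ℝ) (hs : 0 < s) : (mellin fpi (s : ℂ)).re = Real.pi ^ (-s) * Real.Gamma s := by
  rw [← val0 s hs, mellin]
  have h : ∀ t ∈ Set.Ioi (0 : ℝ), ((t : ℂ) ^ ((s : ℂ) - 1)) • fpi t =
      ((t ^ (s - 1) * Real.exp (-(Real.pi * t)) : ℝ) : ℂ) := by
    intro t ht
    unfold fpi
    rw [smul_eq_mul, Complex.ofReal_mul, Complex.ofReal_cpow (le_of_lt ht)]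
    push_cast
    rfl
  rw [setIntegral_congr_fun measurableSet_Ioi h, integral_complex_ofReal]
  exact Complex.ofReal_re _

lemma mellin_log (s : ℝ) :
    mellin (fun t : ℝ => Real.log t • fpi t) (s : ℂ) =
      ((∫ t in Set.Ioi (0 : ℝ), t ^ (s - 1) * Real.exp (-(Real.pi * t)) * Real.log t : ℝ) : ℂ) := by
  rw [mellin, ← integral_complex_ofReal]
  apply setIntegral_congr_fun measurableSet_Ioi
  intro t ht
  simp only [fpi]
  rw [smul_eq_mul, Complex.real_smul, Complex.ofReal_mul, Complex.ofReal_mul,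
    Complex.ofReal_cpow (le_of_lt ht)]
  push_cast
  ring

lemma val1 (s : ℝ) (hs : 0 < s) :
    ∫ t in Set.Ioi (0 : ℝ), t ^ (s - 1) * Real.exp (-(Real.pi * t)) * Real.log t =
      Real.pi ^ (-s) * Real.Gamma s * (deriv Real.Gamma s / Real.Gamma s - Real.log Real.pi) := by
  have h1 := (fpi_mellin s hs).2.real_of_complex
  have h2 : HasDerivAt (fun x : ℝ => Real.pi ^ (-x) * Real.Gamma x)
      (mellin (fun t : ℝ => Real.log t • fpi t) (s : ℂ)).re s := by
    apply h1.congr_of_eventuallyEq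
    filter_upwards [lt_mem_nhds hs] with x hx
    exact (mellin_re x hx).symm
  have hG : HasDerivAt Real.Gamma (deriv Real.Gamma s) s := by
    apply DifferentiableAt.hasDerivAt
    apply Real.differentiableAt_Gamma
    intro m
    have : (0 : ℝ) ≤ m := Nat.cast_nonneg m
    linarith
  have hP : HasDerivAt (fun x : ℝ => Real.pi ^ (-x)) (Real.log Real.pi * (-1) * Real.pi ^ (-s)) s :=
    (hasDerivAt_neg s).const_rpow Real.pi_pos
  have h3 := (hP.mul hG).unique h2
  rw [mellin_log, Complex.ofReal_re] at h3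
  rw [← h3]
  have hGs : Real.Gamma s ≠ 0 := (Real.Gamma_pos_of_pos hs).ne'
  field_simp
  ring

theorem t_LMI : S_LMI := by
  intro a _
  have hs : (0 : ℝ) < (1 / 2 + (a : ℝ)) / 2 := by positivity
  set s : ℝ := (1 / 2 + (a : ℝ)) / 2 with hs'
  have he : (a : ℝ) / 2 - 3 / 4 = s - 1 := by rw [hs']; ring
  rw [he]
  refine ⟨int0 s hs, ?_, ?_, ?_⟩
  · have h := (fpi_mellin s hs).1
    have h2 : IntegrableOn (fun t : ℝ => (((t : ℂ) ^ ((s : ℂ) - 1)) • (Real.log t • fpi t)).re)
        (Set.Ioi 0) := h.re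
    refine h2.congr_fun ?_ measurableSet_Ioi
    intro t ht
    simp only [fpi]
    rw [smul_eq_mul, Complex.real_smul]
    have : (t : ℂ) ^ ((s : ℂ) - 1) = ((t ^ (s - 1) : ℝ) : ℂ) := by
      rw [Complex.ofReal_cpow (le_of_lt ht)]
      push_cast
      rfl
    rw [this, ← Complex.ofReal_mul, ← Complex.ofReal_mul, Complex.ofReal_re]
    ring
  · rw [val0 s hs]
    rfl
  · rw [val1 s hs]
    rfl

end

end Pool.Agent.Q275.FM
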