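import Pool.Agent.Q122.FM.Stm

set_option autoImplicit false

/-!
Project FM (helper122), job LS3: the large sieve for real characters with weights.
-/

namespace Pool.Agent.Q275.FM

open Finset Filter Topology MeasureTheory Pool.Agent.H306R2.RZ Pool.Agent.H306R2.RG
open Pool.Agent.Q122.FM

noncomputable section

lemma exists_dy (Q : ℝ) (hQ : 0 < Q) (s : ℕ) : ∃ i : ℕ, (s : ℝ) ≤ 2 ^ i * Q := by
  obtain ⟨i, hi⟩ := pow_unbounded_of_one_lt ((s : ℝ) / Q) (one_lt_two : (1 : ℝ) < 2)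
  exact ⟨i, by rw [div_lt_iff₀ hQ] at hi; exact hi.le⟩

open Classical in
/-- the dyadic block of `s` -/
def dyi (Q : ℝ) (s : ℕ) : ℕ := if h : ∃ i : ℕ, (s : ℝ) ≤ 2 ^ i * Q then Nat.find h else 0

lemma dyi_le (Q : ℝ) (hQ : 0 < Q) (s : ℕ) : (s : ℝ) ≤ 2 ^ (dyi Q s) * Q := by
  unfold dyi
  rw [dif_pos (exists_dy Q hQ s)]
  exact Nat.find_spec (exists_dy Q hQ s)

lemma dyi_pow (Q : ℝ) (hQ : 0 < Q) (s : ℕ) :
    (8 : ℝ) ^ (dyi Q s) ≤ 8 * (max 1 ((s : ℝ) / Q)) ^ 3 := by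
  rcases Nat.eq_zero_or_pos (dyi Q s) with h | h
  · rw [h, pow_zero]
    have : (1 : ℝ) ≤ (max 1 ((s : ℝ) / Q)) ^ 3 := one_le_pow₀ (le_max_left _ _)
    linarith
  · obtain ⟨j, hj⟩ : ∃ j, dyi Q s = j + 1 := ⟨dyi Q s - 1, by omega⟩
    have h1 : ¬ ((s : ℝ) ≤ 2 ^ j * Q) := by
      have hd : dyi Q s = Nat.find (exists_dy Q hQ s) := by
        unfold dyi
        rw [dif_pos (exists_dy Q hQ s)]
      apply Nat.find_min (exists_dy Q hQ s)
      rw [← hd, hj]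
      omega
    push Not at h1
    have h2 : (2 : ℝ) ^ j ≤ max 1 ((s : ℝ) / Q) := by
      apply le_trans _ (le_max_right _ _)
      rw [le_div_iff₀ hQ]
      exact h1.le
    have h3 : ((2 : ℝ) ^ j) ^ 3 ≤ (max 1 ((s : ℝ) / Q)) ^ 3 := by gcongr
    have h4 : (8 : ℝ) ^ (j + 1) = 8 * ((2 : ℝ) ^ j) ^ 3 := by
      rw [← pow_mul, mul_comm j 3, pow_mul, pow_succ]; norm_num; ring
    rw [hj, h4]
    linarith

lemma wcs (I : ℕ) (z : ℕ → ℝ) :
    (∑ i ∈ range I, z i) ^ 2 ≤ 2 * ∑ i ∈ range I, 2 ^ i * z i ^ 2 := by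
  have h := Finset.sum_sq_le_sum_mul_sum_of_sq_le_mul (range I) (r := z)
    (f := fun i => (1 / 2 : ℝ) ^ i) (g := fun i => 2 ^ i * z i ^ 2)
    (fun i _ => by positivity) (fun i _ => by positivity)
    (fun i _ => by
      rw [← mul_assoc, ← mul_pow]; norm_num)
  have h2 : ∑ i ∈ range I, (1 / 2 : ℝ) ^ i ≤ 2 := by
    have h3 := mul_neg_geom_sum (1 / 2 : ℝ) I
    have : (0 : ℝ) < (1 / 2) ^ I := by positivity
    linarith
  refine h.trans ?_
  apply mul_le_mul_of_nonneg_right h2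
  apply Finset.sum_nonneg
  intro i _
  positivity

theorem t_LS3 (blk : S_BLK) : S_LS3 := by
  intro Q U m u0 c S K hQ hS
  set I : ℕ := S.sup (dyi Q) + 1 with hI
  have hmem : ∀ s ∈ S, dyi Q s ∈ range I := by
    intro s hs
    rw [Finset.mem_range, hI]
    have := Finset.le_sup (f := dyi Q) hs
    omega
  have hsplit : ∀ f : ℕ → ℝ, ∑ s ∈ S, f s = ∑ i ∈ range I, ∑ s ∈ S with dyi Q s = i, f s := by
    intro f
    rw [Finset.sum_fiberwise_of_maps_to hmem]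
  have hblk : ∀ i ∈ range I, ∑ u ∈ Ico u0 (u0 + U),
      (∑ j ∈ Ioc u (u + m), ∑ s ∈ S with dyi Q s = i, K s * js (8 * j + c) s) ^ 2 ≤
      12 * (U + (2 ^ i * Q) ^ 2) * m * ∑ s ∈ S with dyi Q s = i, K s ^ 2 := by
    intro i _
    have h := blk ⌊(2 : ℝ) ^ i * Q⌋₊ U m u0 c (S.filter (fun s => dyi Q s = i)) K (by
      intro s hs
      rw [Finset.mem_filter] at hs
      obtain ⟨h1, h2, h3⟩ := hS s hs.1
      refine ⟨h1, h2, h3, ?_⟩
      apply Nat.le_floor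
      rw [← hs.2]
      exact dyi_le Q hQ s)
    refine h.trans ?_
    have h5 : ((⌊(2 : ℝ) ^ i * Q⌋₊ : ℕ) : ℝ) ≤ 2 ^ i * Q := Nat.floor_le (by positivity)
    gcongr
  have hW : ∀ u : ℤ, (∑ j ∈ Ioc u (u + m), ∑ s ∈ S, K s * js (8 * j + c) s) =
      ∑ i ∈ range I, ∑ j ∈ Ioc u (u + m), ∑ s ∈ S with dyi Q s = i, K s * js (8 * j + c) s := by
    intro u
    rw [Finset.sum_comm (s := range I)]
    apply Finset.sum_congr rfl
    intro j _
    exact hsplit _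
  calc ∑ u ∈ Ico u0 (u0 + U), (∑ j ∈ Ioc u (u + m), ∑ s ∈ S, K s * js (8 * j + c) s) ^ 2
      ≤ ∑ u ∈ Ico u0 (u0 + U), 2 * ∑ i ∈ range I, 2 ^ i *
        (∑ j ∈ Ioc u (u + m), ∑ s ∈ S with dyi Q s = i, K s * js (8 * j + c) s) ^ 2 := by
        apply Finset.sum_le_sum
        intro u _
        rw [hW u]
        exact wcs I _
    _ = 2 * ∑ i ∈ range I, 2 ^ i * ∑ u ∈ Ico u0 (u0 + U),
        (∑ j ∈ Ioc u (u + m), ∑ s ∈ S with dyi Q s = i, K s * js (8 * j + c) s) ^ 2 := by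
        rw [← Finset.mul_sum, Finset.sum_comm]
        congr 1
        apply Finset.sum_congr rfl
        intro i _
        rw [Finset.mul_sum]
    _ ≤ 2 * ∑ i ∈ range I, 2 ^ i * (12 * (U + (2 ^ i * Q) ^ 2) * m *
        ∑ s ∈ S with dyi Q s = i, K s ^ 2) := by
        apply mul_le_mul_of_nonneg_left _ (by norm_num)
        apply Finset.sum_le_sum
        intro i hi
        exact mul_le_mul_of_nonneg_left (hblk i hi) (by positivity)
    _ ≤ 2 * ∑ i ∈ range I, (96 * (U + Q ^ 2) * m *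
        ∑ s ∈ S with dyi Q s = i, (max 1 ((s : ℝ) / Q)) ^ 3 * K s ^ 2) := by
        apply mul_le_mul_of_nonneg_left _ (by norm_num)
        apply Finset.sum_le_sum
        intro i _
        rw [Finset.mul_sum, Finset.mul_sum, Finset.mul_sum]
        apply Finset.sum_le_sum
        intro s hs
        rw [Finset.mem_filter] at hs
        have h1 := dyi_pow Q hQ s
        rw [hs.2] at h1
        have h2 : (2 : ℝ) ^ i * (U + (2 ^ i * Q) ^ 2) ≤ 8 ^ i * (U + Q ^ 2) := by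
          have e1 : (8 : ℝ) ^ i = 2 ^ i * (2 ^ i * 2 ^ i) := by
            rw [← mul_pow, ← mul_pow]; norm_num
          have e2 : (1 : ℝ) ≤ 2 ^ i * 2 ^ i := by
            have : (1 : ℝ) ≤ 2 ^ i := one_le_pow₀ (by norm_num)
            nlinarith
          rw [e1]
          have e3 : (U : ℝ) ≤ 2 ^ i * 2 ^ i * U := by
            have : (0 : ℝ) ≤ U := Nat.cast_nonneg U
            nlinarith
          calc (2 : ℝ) ^ i * (U + (2 ^ i * Q) ^ 2)
              ≤ 2 ^ i * (2 ^ i * 2 ^ i * U + (2 ^ i * Q) ^ 2) := by gcongr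
            _ = 2 ^ i * (2 ^ i * 2 ^ i) * (U + Q ^ 2) := by ring
        calc (2 : ℝ) ^ i * (12 * (U + (2 ^ i * Q) ^ 2) * m * K s ^ 2)
            = 12 * ((2 : ℝ) ^ i * (U + (2 ^ i * Q) ^ 2)) * m * K s ^ 2 := by ring
          _ ≤ 12 * (8 ^ i * (U + Q ^ 2)) * m * K s ^ 2 := by gcongr
          _ ≤ 12 * (8 * (max 1 ((s : ℝ) / Q)) ^ 3 * (U + Q ^ 2)) * m * K s ^ 2 := by gcongr
          _ = 96 * (U + Q ^ 2) * m * ((max 1 ((s : ℝ) / Q)) ^ 3 * K s ^ 2) := by ring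
    _ = 192 * (U + Q ^ 2) * m * ∑ s ∈ S, (max 1 ((s : ℝ) / Q)) ^ 3 * K s ^ 2 := by
        rw [hsplit (fun s => (max 1 ((s : ℝ) / Q)) ^ 3 * K s ^ 2), ← Finset.mul_sum]
        ring
    _ ≤ 200 * (U + Q ^ 2) * m * ∑ s ∈ S, (max 1 ((s : ℝ) / Q)) ^ 3 * K s ^ 2 := by
        have h1 : 0 ≤ ∑ s ∈ S, (max 1 ((s : ℝ) / Q)) ^ 3 * K s ^ 2 := by
          apply Finset.sum_nonneg
          intro s _
          positivity
        gcongr
        norm_num

end

end Pool.Agent.Q275.FM
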