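import Pool.Agent.Q122.FM.Stm

set_option autoImplicit false

/-!
Project FM (helper122), job RA: second moment of the tail of the sum for the squarefree numbers.
-/

namespace Pool.Agent.Q275.FM

open Finset Filter Topology MeasureTheory Pool.Agent.H306R2.RZ Pool.Agent.H306R2.RG
open Pool.Agent.Q122.FM

noncomputable section

/-- proof copied from `SG.moebius_sq_eq` -/
theorem moebius_sqI (n : ℕ) (hn : n ≠ 0) :
    ((ArithmeticFunction.moebius n : ℤ) : ℝ) ^ 2 =
      ∑ d ∈ Finset.Icc 1 n, if d ^ 2 ∣ n then ((ArithmeticFunction.moebius d : ℤ) : ℝ) else 0 := by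
  obtain ⟨a, b, hab, ha⟩ := Nat.sq_mul_squarefree n
  have hb0 : b ≠ 0 := by rintro rfl; apply hn; rw [← hab]; simp
  have ha0 : a ≠ 0 := by rintro rfl; apply hn; rw [← hab]; simp
  have key : ∀ d : ℕ, d ^ 2 ∣ n ↔ d ∣ b := by
    intro d
    constructor
    · intro h
      have hd0 : d ≠ 0 := by
        rintro rfl
        rw [zero_pow two_ne_zero, zero_dvd_iff] at h
        exact hn h
      rw [← Nat.factorization_le_iff_dvd (pow_ne_zero _ hd0) hn] at h
      rw [← Nat.factorization_le_iff_dvd hd0 hb0]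
      intro p
      have h1 := h p
      rw [← hab, Nat.factorization_mul (pow_ne_zero _ hb0) ha0, Nat.factorization_pow,
        Nat.factorization_pow] at h1
      have h2 := ha.natFactorization_le_one p
      simp only [Finsupp.coe_smul, Finsupp.coe_add, Pi.add_apply, Pi.smul_apply, smul_eq_mul] at h1
      omega
    · intro h
      rw [← hab]
      exact Dvd.dvd.mul_right (pow_dvd_pow_of_dvd h 2) a
  have h1 : (∑ d ∈ Finset.Icc 1 n, if d ^ 2 ∣ n then ((ArithmeticFunction.moebius d : ℤ) : ℝ) else 0)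
      = ∑ d ∈ b.divisors, ((ArithmeticFunction.moebius d : ℤ) : ℝ) := by
    rw [← Finset.sum_filter]
    apply Finset.sum_congr _ (fun _ _ => rfl)
    ext d
    simp only [Finset.mem_filter, Finset.mem_Icc, Nat.mem_divisors, key]
    constructor
    · rintro ⟨-, h⟩; exact ⟨h, hb0⟩
    · rintro ⟨h, -⟩
      refine ⟨⟨Nat.pos_of_dvd_of_pos h (Nat.pos_of_ne_zero hb0), ?_⟩, h⟩
      have h3 : d ≤ b := Nat.le_of_dvd (Nat.pos_of_ne_zero hb0) h
      have h4 : b ∣ n := by rw [← hab]; exact Dvd.dvd.mul_right (dvd_pow_self b two_ne_zero) a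
      exact h3.trans (Nat.le_of_dvd (Nat.pos_of_ne_zero hn) h4)
  rw [h1]
  have h2 : (∑ d ∈ b.divisors, (ArithmeticFunction.moebius d : ℤ)) = if b = 1 then 1 else 0 := by
    have := congrArg (fun f => f b) ArithmeticFunction.moebius_mul_coe_zeta
    simp only [ArithmeticFunction.coe_mul_zeta_apply, ArithmeticFunction.one_apply] at this
    exact this
  have h2' : (∑ d ∈ b.divisors, ((ArithmeticFunction.moebius d : ℤ) : ℝ)) = if b = 1 then 1 else 0 := by
    have := congrArg (fun z : ℤ => (z : ℝ)) h2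
    push_cast at this
    exact this
  rw [h2']
  have h3 : ((ArithmeticFunction.moebius n : ℤ) : ℝ) ^ 2 = if Squarefree n then 1 else 0 := by
    have := congrArg (fun z : ℤ => (z : ℝ)) (ArithmeticFunction.moebius_sq (n := n))
    push_cast at this
    exact this
  rw [h3]
  have h4 : Squarefree n ↔ b = 1 := by
    constructor
    · intro h
      have := h b (by rw [← hab, ← sq]; exact dvd_mul_right _ _)
      exact Nat.isUnit_iff.mp this
    · rintro rfl
      rw [← hab]; simpa using ha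
  simp only [h4]

lemma RA_le (A d D : ℕ) (hd : 1 ≤ d) (hD : d ≤ D) :
    |RA A d| ≤ ∑ a ∈ Ioc A D, (if a ^ 2 ∣ d then (1 : ℝ) else 0) := by
  set f : ℕ → ℝ := fun a => if a ^ 2 ∣ d then ((ArithmeticFunction.moebius a : ℤ) : ℝ) else 0
    with hf
  have hbig : ∀ a : ℕ, d < a → ¬ (a ^ 2 ∣ d) := by
    intro a ha h
    have h1 := Nat.le_of_dvd (by omega) h
    have h2 : a ≤ a ^ 2 := Nat.le_self_pow two_ne_zero a
    omega
  have hfb : ∀ a : ℕ, |f a| ≤ (if a ^ 2 ∣ d then (1 : ℝ) else 0) := by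
    intro a
    simp only [hf]
    split_ifs
    · have := ArithmeticFunction.abs_moebius_le_one (n := a)
      exact_mod_cast this
    · simp
  have h1 : (if Squarefree d then (1 : ℝ) else 0) = ∑ a ∈ Ioc 0 d, f a := by
    have h2 := moebius_sqI d (by omega)
    have h3 : ((ArithmeticFunction.moebius d : ℤ) : ℝ) ^ 2 = if Squarefree d then 1 else 0 := by
      have := congrArg (fun z : ℤ => (z : ℝ)) (ArithmeticFunction.moebius_sq (n := d))
      push_cast at this
      exact this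
    rw [← h3, h2]
    rfl
  have h4 : ∑ a ∈ (Icc 1 A).filter (fun a => a ^ 2 ∣ d),
      ((ArithmeticFunction.moebius a : ℤ) : ℝ) = ∑ a ∈ Ioc 0 A, f a := by
    rw [Finset.sum_filter]
    rfl
  have h5 : RA A d = ∑ a ∈ Ioc 0 d, f a - ∑ a ∈ Ioc 0 A, f a := by
    unfold RA
    rw [h1, h4]
  set M : ℕ := max A D with hM
  have h6 : ∑ a ∈ Ioc 0 d, f a = ∑ a ∈ Ioc 0 M, f a := by
    apply Finset.sum_subset (Finset.Ioc_subset_Ioc_right (by omega))
    intro a _ ha
    simp only [hf]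
    rw [if_neg]
    rw [Finset.mem_Ioc] at ha
    rcases Nat.eq_zero_or_pos a with h0 | h0
    · subst h0
      intro h
      rw [zero_pow two_ne_zero, zero_dvd_iff] at h
      omega
    · exact hbig a (by omega)
  have h7 : ∑ a ∈ Ioc 0 M, f a = ∑ a ∈ Ioc 0 A, f a + ∑ a ∈ Ioc A M, f a :=
    (Finset.sum_Ioc_consecutive f (Nat.zero_le A) (le_max_left A D)).symm
  rw [h5, h6, h7, add_sub_cancel_left]
  calc |∑ a ∈ Ioc A M, f a| ≤ ∑ a ∈ Ioc A M, |f a| := Finset.abs_sum_le_sum_abs _ _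
    _ ≤ ∑ a ∈ Ioc A M, (if a ^ 2 ∣ d then (1 : ℝ) else 0) := Finset.sum_le_sum (fun a _ => hfb a)
    _ = ∑ a ∈ Ioc A D, (if a ^ 2 ∣ d then (1 : ℝ) else 0) := by
        symm
        apply Finset.sum_subset (Finset.Ioc_subset_Ioc_right (le_max_right A D))
        intro a ha ha'
        rw [if_neg]
        rw [Finset.mem_Ioc] at ha ha'
        exact hbig a (by omega)

lemma count_le (a b D : ℕ) (ha : 1 ≤ a) (hb : 1 ≤ b) :
    ∑ d ∈ Icc 1 D, (if a ^ 2 ∣ d then (1 : ℝ) else 0) * (if b ^ 2 ∣ d then (1 : ℝ) else 0) ≤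
      D * ((a.gcd b : ℕ) : ℝ) ^ 2 * (1 / (a : ℝ) ^ 2) * (1 / (b : ℝ) ^ 2) := by
  set L : ℕ := (a ^ 2).lcm (b ^ 2) with hL
  have hL0 : 0 < L := Nat.lcm_pos (by positivity) (by positivity)
  have h1 : ∑ d ∈ Icc 1 D, (if a ^ 2 ∣ d then (1 : ℝ) else 0) * (if b ^ 2 ∣ d then (1 : ℝ) else 0)
      ≤ ∑ d ∈ Ioc 0 D, (if L ∣ d then (1 : ℝ) else 0) := by
    apply Finset.sum_le_sum
    intro d _
    by_cases h2 : a ^ 2 ∣ d
    · by_cases h3 : b ^ 2 ∣ d
      · have h4 : L ∣ d := Nat.lcm_dvd h2 h3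
        rw [if_pos h2, if_pos h3, if_pos h4]
        norm_num
      · rw [if_neg h3, mul_zero]
        split_ifs <;> norm_num
    · rw [if_neg h2, zero_mul]
      split_ifs <;> norm_num
  have h2 : ∑ d ∈ Ioc 0 D, (if L ∣ d then (1 : ℝ) else 0) = ((D / L : ℕ) : ℝ) := by
    rw [← Finset.sum_filter, Finset.sum_const, nsmul_eq_mul, mul_one, Nat.Ioc_filter_dvd_card_eq_div]
  have h3 : ((D / L : ℕ) : ℝ) ≤ (D : ℝ) / L := Nat.cast_div_le
  have h4 : ((a.gcd b : ℕ) : ℝ) ^ 2 * L = (a : ℝ) ^ 2 * (b : ℝ) ^ 2 := by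
    have h5 := Nat.gcd_mul_lcm (a ^ 2) (b ^ 2)
    rw [Nat.pow_gcd_pow, ← hL] at h5
    exact_mod_cast h5
  have h5 : (D : ℝ) / L = D * ((a.gcd b : ℕ) : ℝ) ^ 2 * (1 / (a : ℝ) ^ 2) * (1 / (b : ℝ) ^ 2) := by
    have hL' : (0 : ℝ) < L := by exact_mod_cast hL0
    have ha' : (0 : ℝ) < a := by exact_mod_cast ha
    have hb' : (0 : ℝ) < b := by exact_mod_cast hb
    field_simp
    linear_combination (-(D : ℝ)) * h4
  rw [← h5]
  exact h1.trans (h2 ▸ h3)

lemma inner_le (A D g : ℕ) (hA : 1 ≤ A) (hg : 1 ≤ g) :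
    ∑ a ∈ Ioc A D, (if g ∣ a then 1 / (a : ℝ) ^ 2 else 0) ≤ 2 / ((g : ℝ) * max (A : ℝ) g) := by
  have hg' : (0 : ℝ) < g := by exact_mod_cast hg
  have hA' : (0 : ℝ) < A := by exact_mod_cast hA
  rw [← Finset.sum_filter]
  have hinj : Set.InjOn (fun a : ℕ => a / g) ((Ioc A D).filter (fun a => g ∣ a) : Finset ℕ) := by
    intro a ha b hb h
    rw [Finset.mem_coe, Finset.mem_filter] at ha hb
    have h1 := Nat.div_mul_cancel ha.2
    have h2 := Nat.div_mul_cancel hb.2
    simp only at h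
    rw [← h1, ← h2, h]
  have h1 : ∑ a ∈ (Ioc A D).filter (fun a => g ∣ a), 1 / (a : ℝ) ^ 2 =
      ∑ α ∈ ((Ioc A D).filter (fun a => g ∣ a)).image (fun a => a / g),
        1 / (g : ℝ) ^ 2 * ((α : ℝ) ^ 2)⁻¹ := by
    rw [Finset.sum_image hinj]
    apply Finset.sum_congr rfl
    intro a ha
    rw [Finset.mem_filter] at ha
    rw [Nat.cast_div ha.2 hg'.ne']
    field_simp
  rw [h1]
  calc ∑ α ∈ ((Ioc A D).filter (fun a => g ∣ a)).image (fun a => a / g),
        1 / (g : ℝ) ^ 2 * ((α : ℝ) ^ 2)⁻¹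
      ≤ ∑ α ∈ Ioo (A / g) (D + 1), 1 / (g : ℝ) ^ 2 * ((α : ℝ) ^ 2)⁻¹ := by
        apply Finset.sum_le_sum_of_subset_of_nonneg
        · intro α hα
          rw [Finset.mem_image] at hα
          obtain ⟨a, ha, rfl⟩ := hα
          rw [Finset.mem_filter, Finset.mem_Ioc] at ha
          rw [Finset.mem_Ioo]
          obtain ⟨⟨h2, h3⟩, h4⟩ := ha
          have h5 := Nat.mul_div_cancel' h4
          constructor
          · apply Nat.div_lt_of_lt_mul
            rw [h5]
            exact h2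
          · have := Nat.div_le_self a g
            omega
        · intro α _ _
          positivity
    _ = 1 / (g : ℝ) ^ 2 * ∑ α ∈ Ioo (A / g) (D + 1), ((α : ℝ) ^ 2)⁻¹ := by
        rw [Finset.mul_sum]
    _ ≤ 1 / (g : ℝ) ^ 2 * (2 / (((A / g : ℕ) : ℝ) + 1)) := by
        apply mul_le_mul_of_nonneg_left (sum_Ioo_inv_sq_le _ _) (by positivity)
    _ = 2 / ((g : ℝ) * (g * (((A / g : ℕ) : ℝ) + 1))) := by
        field_simp
    _ ≤ 2 / ((g : ℝ) * max (A : ℝ) g) := by
        have h6 : max (A : ℝ) g ≤ g * (((A / g : ℕ) : ℝ) + 1) := by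
          apply max_le
          · have := Nat.lt_mul_div_succ A hg
            have h7 : (A : ℝ) < g * (((A / g : ℕ) : ℝ) + 1) := by exact_mod_cast this
            exact h7.le
          · have : (0 : ℝ) ≤ ((A / g : ℕ) : ℝ) := Nat.cast_nonneg _
            nlinarith
        apply div_le_div_of_nonneg_left (by norm_num) (by positivity)
        apply mul_le_mul_of_nonneg_left h6 hg'.le

lemma gsum_le (A D : ℕ) (hA : 1 ≤ A) :
    ∑ g ∈ Icc 1 D, 4 / (max (A : ℝ) g) ^ 2 ≤ 12 / (A : ℝ) := by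
  have hA' : (0 : ℝ) < A := by exact_mod_cast hA
  have h1 : ∑ g ∈ Icc 1 D, 4 / (max (A : ℝ) g) ^ 2 ≤
      ∑ g ∈ Icc 1 A, 4 / (A : ℝ) ^ 2 + ∑ g ∈ Ioo A (D + 1), 4 * ((g : ℝ) ^ 2)⁻¹ := by
    have hsub : Icc 1 D ⊆ Icc 1 A ∪ Ioo A (D + 1) := by
      intro g hg
      rw [Finset.mem_Icc] at hg
      rw [Finset.mem_union, Finset.mem_Icc, Finset.mem_Ioo]
      omega
    have hdisj : Disjoint (Icc 1 A) (Ioo A (D + 1)) := by
      rw [Finset.disjoint_left]
      intro g hg hg'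
      rw [Finset.mem_Icc] at hg
      rw [Finset.mem_Ioo] at hg'
      omega
    calc ∑ g ∈ Icc 1 D, 4 / (max (A : ℝ) g) ^ 2
        ≤ ∑ g ∈ Icc 1 A ∪ Ioo A (D + 1), 4 / (max (A : ℝ) g) ^ 2 := by
          apply Finset.sum_le_sum_of_subset_of_nonneg hsub
          intro g _ _
          positivity
      _ = ∑ g ∈ Icc 1 A, 4 / (max (A : ℝ) g) ^ 2 +
          ∑ g ∈ Ioo A (D + 1), 4 / (max (A : ℝ) g) ^ 2 := Finset.sum_union hdisj
      _ ≤ _ := by
          apply add_le_add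
          · apply Finset.sum_le_sum
            intro g _
            apply div_le_div_of_nonneg_left (by norm_num) (by positivity)
            have := le_max_left (A : ℝ) g
            gcongr
          · apply Finset.sum_le_sum
            intro g hg
            rw [Finset.mem_Ioo] at hg
            have hg0 : (0 : ℝ) < g := by
              have : 0 < g := by omega
              exact_mod_cast this
            rw [← div_eq_mul_inv]
            apply div_le_div_of_nonneg_left (by norm_num) (by positivity)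
            have := le_max_right (A : ℝ) g
            gcongr
  have h2 : ∑ g ∈ Icc 1 A, 4 / (A : ℝ) ^ 2 = 4 / (A : ℝ) := by
    rw [Finset.sum_const, Nat.card_Icc, nsmul_eq_mul, Nat.add_sub_cancel]
    field_simp
  have h3 : ∑ g ∈ Ioo A (D + 1), 4 * ((g : ℝ) ^ 2)⁻¹ ≤ 8 / (A : ℝ) := by
    rw [← Finset.mul_sum]
    have h4 := sum_Ioo_inv_sq_le (α := ℝ) A (D + 1)
    have h5 : 2 / ((A : ℝ) + 1) ≤ 2 / A := by
      apply div_le_div_of_nonneg_left (by norm_num) hA'
      linarith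
    calc 4 * ∑ g ∈ Ioo A (D + 1), ((g : ℝ) ^ 2)⁻¹ ≤ 4 * (2 / A) := by linarith
      _ = 8 / A := by ring
  calc _ ≤ 4 / (A : ℝ) + 8 / A := by linarith
    _ = 12 / A := by ring

theorem t_RA : S_RA := by
  intro A D hA
  have hA' : (0 : ℝ) < A := by exact_mod_cast hA
  set i : ℕ → ℕ → ℝ := fun a d => if a ^ 2 ∣ d then (1 : ℝ) else 0 with hi
  set e : ℕ → ℕ → ℝ := fun g a => if g ∣ a then 1 / (a : ℝ) ^ 2 else 0 with he
  have h1 : ∑ d ∈ Icc 1 D, RA A d ^ 2 ≤ ∑ d ∈ Icc 1 D, (∑ a ∈ Ioc A D, i a d) ^ 2 := by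
    apply Finset.sum_le_sum
    intro d hd
    rw [Finset.mem_Icc] at hd
    rw [← sq_abs]
    have := RA_le A d D hd.1 hd.2
    gcongr
  have h2 : ∑ d ∈ Icc 1 D, (∑ a ∈ Ioc A D, i a d) ^ 2 =
      ∑ a ∈ Ioc A D, ∑ b ∈ Ioc A D, ∑ d ∈ Icc 1 D, i a d * i b d := by
    calc ∑ d ∈ Icc 1 D, (∑ a ∈ Ioc A D, i a d) ^ 2
        = ∑ d ∈ Icc 1 D, ∑ a ∈ Ioc A D, ∑ b ∈ Ioc A D, i a d * i b d := by
          apply Finset.sum_congr rfl
          intro d _
          rw [sq, Finset.sum_mul_sum]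
      _ = ∑ a ∈ Ioc A D, ∑ d ∈ Icc 1 D, ∑ b ∈ Ioc A D, i a d * i b d := Finset.sum_comm
      _ = _ := by
          apply Finset.sum_congr rfl
          intro a _
          exact Finset.sum_comm
  have h3 : ∀ a ∈ Ioc A D, ∀ b ∈ Ioc A D, ∑ d ∈ Icc 1 D, i a d * i b d ≤
      ∑ g ∈ Icc 1 D, (D : ℝ) * (g : ℝ) ^ 2 * (e g a * e g b) := by
    intro a ha b hb
    rw [Finset.mem_Ioc] at ha hb
    refine (count_le a b D (by omega) (by omega)).trans ?_
    have hg1 : 0 < a.gcd b := Nat.gcd_pos_of_pos_left b (by omega)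
    have hg2 : a.gcd b ≤ D := (Nat.gcd_le_left b (by omega)).trans ha.2
    have h4 := Finset.single_le_sum (s := Icc 1 D)
      (f := fun g : ℕ => (D : ℝ) * (g : ℝ) ^ 2 * (e g a * e g b))
      (fun g _ => by
        simp only [he]
        have : 0 ≤ (if g ∣ a then 1 / (a : ℝ) ^ 2 else 0) := by split_ifs <;> positivity
        have : 0 ≤ (if g ∣ b then 1 / (b : ℝ) ^ 2 else 0) := by split_ifs <;> positivity
        positivity)
      (Finset.mem_Icc.mpr ⟨hg1, hg2⟩)
    refine le_trans (le_of_eq ?_) h4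
    simp only [he]
    rw [if_pos (Nat.gcd_dvd_left a b), if_pos (Nat.gcd_dvd_right a b)]
    ring
  calc ∑ d ∈ Icc 1 D, RA A d ^ 2
      ≤ ∑ a ∈ Ioc A D, ∑ b ∈ Ioc A D, ∑ g ∈ Icc 1 D, (D : ℝ) * (g : ℝ) ^ 2 * (e g a * e g b) := by
        refine h1.trans (h2.le.trans ?_)
        exact Finset.sum_le_sum (fun a ha => Finset.sum_le_sum (fun b hb => h3 a ha b hb))
    _ = ∑ g ∈ Icc 1 D, (D : ℝ) * (g : ℝ) ^ 2 * (∑ a ∈ Ioc A D, e g a) ^ 2 := by
        calc _ = ∑ a ∈ Ioc A D, ∑ g ∈ Icc 1 D, ∑ b ∈ Ioc A D,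
              (D : ℝ) * (g : ℝ) ^ 2 * (e g a * e g b) := by
              apply Finset.sum_congr rfl
              intro a _
              exact Finset.sum_comm
          _ = ∑ g ∈ Icc 1 D, ∑ a ∈ Ioc A D, ∑ b ∈ Ioc A D,
              (D : ℝ) * (g : ℝ) ^ 2 * (e g a * e g b) := Finset.sum_comm
          _ = _ := by
              apply Finset.sum_congr rfl
              intro g _
              rw [sq (∑ a ∈ Ioc A D, e g a), Finset.sum_mul_sum, Finset.mul_sum]
              apply Finset.sum_congr rfl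
              intro a _
              rw [Finset.mul_sum]
    _ ≤ ∑ g ∈ Icc 1 D, (D : ℝ) * (4 / (max (A : ℝ) g) ^ 2) := by
        apply Finset.sum_le_sum
        intro g hg
        rw [Finset.mem_Icc] at hg
        have hg' : (0 : ℝ) < g := by exact_mod_cast hg.1
        have h5 := inner_le A D g hA hg.1
        have h6 : 0 ≤ ∑ a ∈ Ioc A D, e g a := by
          apply Finset.sum_nonneg
          intro a _
          simp only [he]
          split_ifs <;> positivity
        have hm : 0 < max (A : ℝ) g := lt_max_of_lt_left hA'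
        calc (D : ℝ) * (g : ℝ) ^ 2 * (∑ a ∈ Ioc A D, e g a) ^ 2
            ≤ (D : ℝ) * (g : ℝ) ^ 2 * (2 / ((g : ℝ) * max (A : ℝ) g)) ^ 2 := by gcongr
          _ = (D : ℝ) * (4 / (max (A : ℝ) g) ^ 2) := by
              field_simp
              ring
    _ = (D : ℝ) * ∑ g ∈ Icc 1 D, (4 / (max (A : ℝ) g) ^ 2) := by rw [Finset.mul_sum]
    _ ≤ (D : ℝ) * (12 / A) := by
        gcongr
        exact gsum_le A D hA
    _ ≤ 16 * D / A := by
        rw [mul_div_assoc', mul_comm (D : ℝ) 12]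
        gcongr
        norm_num

end

end Pool.Agent.Q275.FM
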