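import Pool.Agent.Q122.FM.Stm

set_option autoImplicit false

/-!
Project FM (helper122), job WS: the weighted one-variable sum.
-/

namespace Pool.Agent.Q275.FM

open Finset Filter Topology MeasureTheory Pool.Agent.H306R2.RZ Pool.Agent.H306R2.RG
open Pool.Agent.Q122.FM

noncomputable section

lemma max_bd (x : ℝ) (hx : 0 < x) :
    (max 1 x) ^ 3 * (1 + x) * Real.exp (-(x ^ 2 / 2)) ≤ 16 := by
  rw [Real.exp_neg, ← div_eq_mul_inv, div_le_iff₀ (Real.exp_pos _)]
  have h1 := Real.quadratic_le_exp_of_nonneg (show (0 : ℝ) ≤ x ^ 2 / 2 by positivity)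
  rcases le_total x 1 with h | h
  · rw [max_eq_left h]
    nlinarith [sq_nonneg (x ^ 2)]
  · rw [max_eq_right h]
    have : x ^ 3 * (1 + x) ≤ 2 * x ^ 4 := by nlinarith [pow_pos hx 3]
    nlinarith

lemma tele (Q : ℝ) (hQ : 0 < Q) (M : ℕ) :
    ∑ s ∈ range (M + 1), Q / (((s : ℝ) + 1) * ((s : ℝ) + 1 + Q)) ≤
      1 + Real.log (1 + Q) - (Real.log ((M : ℝ) + 1 + Q) - Real.log ((M : ℝ) + 1)) := by
  induction M with
  | zero =>
    simp only [zero_add, Finset.sum_range_one, Nat.cast_zero, Real.log_one, one_mul, sub_zero]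
    have : Q / (1 + Q) ≤ 1 := by rw [div_le_one (by positivity)]; linarith
    linarith
  | succ M ih =>
    rw [Finset.sum_range_succ]
    push_cast
    have hM : (0 : ℝ) ≤ M := Nat.cast_nonneg M
    set t : ℝ := (M : ℝ) + 1 with ht
    have ht0 : 0 < t := by positivity
    have h : Q / ((t + 1) * (t + 1 + Q)) ≤
        (Real.log (t + Q) - Real.log t) - (Real.log (t + 1 + Q) - Real.log (t + 1)) := by
      have e : (Real.log (t + Q) - Real.log t) - (Real.log (t + 1 + Q) - Real.log (t + 1)) =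
          - Real.log (t * (t + 1 + Q) / ((t + Q) * (t + 1))) := by
        rw [Real.log_div (by positivity) (by positivity), Real.log_mul (by positivity)
          (by positivity), Real.log_mul (by positivity) (by positivity)]
        ring
      rw [e]
      have h2 := Real.log_le_sub_one_of_pos
        (show 0 < t * (t + 1 + Q) / ((t + Q) * (t + 1)) by positivity)
      have h3 : 1 - t * (t + 1 + Q) / ((t + Q) * (t + 1)) = Q / ((t + Q) * (t + 1)) := by
        field_simp
        ring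
      have h4 : Q / ((t + 1) * (t + 1 + Q)) ≤ Q / ((t + Q) * (t + 1)) := by
        apply div_le_div_of_nonneg_left hQ.le (by positivity)
        nlinarith
      linarith
    linarith

theorem t_WS : S_WS := by
  refine ⟨16, by norm_num, ?_⟩
  intro Q M hQ
  have hlog : 0 ≤ Real.log (1 + Q) := Real.log_nonneg (by linarith)
  have key : ∀ s : ℕ, 1 / ((s + 1 : ℕ) : ℝ) * (max 1 (((s + 1 : ℕ) : ℝ) / Q)) ^ 3 *
      Real.exp (-(((s + 1 : ℕ) : ℝ) / Q) ^ 2) ≤
      16 * Real.exp (-(1 / (2 * Q ^ 2))) * (Q / (((s : ℝ) + 1) * ((s : ℝ) + 1 + Q))) := by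
    intro s
    push_cast
    set t : ℝ := (s : ℝ) + 1 with ht
    have ht1 : 1 ≤ t := by rw [ht]; linarith [Nat.cast_nonneg (α := ℝ) s]
    have ht0 : 0 < t := by linarith
    set x : ℝ := t / Q with hx
    have hx0 : 0 < x := by positivity
    have h1 : Real.exp (-x ^ 2) ≤ Real.exp (-(x ^ 2 / 2)) * Real.exp (-(1 / (2 * Q ^ 2))) := by
      rw [← Real.exp_add]
      apply Real.exp_le_exp.mpr
      have : 1 / (2 * Q ^ 2) ≤ x ^ 2 / 2 := by
        rw [hx, div_pow, div_div, mul_comm (Q ^ 2) 2]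
        gcongr
        nlinarith
      linarith
    have h2 := max_bd x hx0
    have h3 : (max 1 x) ^ 3 * Real.exp (-(x ^ 2 / 2)) ≤ 16 / (1 + x) := by
      rw [le_div_iff₀ (by positivity)]
      linarith
    calc 1 / t * (max 1 x) ^ 3 * Real.exp (-x ^ 2)
        ≤ 1 / t * (max 1 x) ^ 3 *
          (Real.exp (-(x ^ 2 / 2)) * Real.exp (-(1 / (2 * Q ^ 2)))) := by gcongr
      _ = 1 / t * Real.exp (-(1 / (2 * Q ^ 2))) *
          ((max 1 x) ^ 3 * Real.exp (-(x ^ 2 / 2))) := by ring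
      _ ≤ 1 / t * Real.exp (-(1 / (2 * Q ^ 2))) * (16 / (1 + x)) := by gcongr
      _ = 16 * Real.exp (-(1 / (2 * Q ^ 2))) * (Q / (t * (t + Q))) := by
          rw [hx]
          field_simp
          ring
  have hsum : ∑ s ∈ Icc 1 M, 1 / (s : ℝ) * (max 1 ((s : ℝ) / Q)) ^ 3 *
      Real.exp (-((s : ℝ) / Q) ^ 2) =
      ∑ s ∈ range M, 1 / ((s + 1 : ℕ) : ℝ) * (max 1 (((s + 1 : ℕ) : ℝ) / Q)) ^ 3 *
      Real.exp (-(((s + 1 : ℕ) : ℝ) / Q) ^ 2) := by
    rw [Finset.sum_bij (fun v _ => v - 1)]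
    · intro v hv
      have := Finset.mem_Icc.mp hv
      simp only [Finset.mem_range]; omega
    · intro v hv w hw h
      have := Finset.mem_Icc.mp hv
      have := Finset.mem_Icc.mp hw
      omega
    · intro v hv
      exact ⟨v + 1, by simp only [Finset.mem_Icc]; have := Finset.mem_range.mp hv; omega, by simp⟩
    · intro v hv
      have := Finset.mem_Icc.mp hv
      have h : v - 1 + 1 = v := by omega
      rw [h]
  rw [hsum]
  calc _ ≤ ∑ s ∈ range M, 16 * Real.exp (-(1 / (2 * Q ^ 2))) *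
        (Q / (((s : ℝ) + 1) * ((s : ℝ) + 1 + Q))) := Finset.sum_le_sum (fun s _ => key s)
    _ = 16 * Real.exp (-(1 / (2 * Q ^ 2))) *
        ∑ s ∈ range M, (Q / (((s : ℝ) + 1) * ((s : ℝ) + 1 + Q))) := by
        rw [← Finset.mul_sum]
    _ ≤ 16 * Real.exp (-(1 / (2 * Q ^ 2))) *
        ∑ s ∈ range (M + 1), (Q / (((s : ℝ) + 1) * ((s : ℝ) + 1 + Q))) := by
        apply mul_le_mul_of_nonneg_left _ (by positivity)
        rw [Finset.sum_range_succ]
        have : 0 ≤ Q / (((M : ℝ) + 1) * ((M : ℝ) + 1 + Q)) := by positivity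
        linarith
    _ ≤ 16 * Real.exp (-(1 / (2 * Q ^ 2))) * (1 + Real.log (1 + Q)) := by
        gcongr
        have h1 := tele Q hQ M
        have h2 : Real.log ((M : ℝ) + 1) ≤ Real.log ((M : ℝ) + 1 + Q) := by
          apply Real.log_le_log (by positivity); linarith
        linarith
    _ = _ := by ring

end

end Pool.Agent.Q275.FM
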