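import Pool.Agent.Q122.FM.Stm

set_option autoImplicit false

/-!
Project FM (helper122), job SQH: the harmonic sum with a coprimality condition.
-/

namespace Pool.Agent.Q275.FM

open Finset Filter Topology MeasureTheory Pool.Agent.H306R2.RZ Pool.Agent.H306R2.RG
open Pool.Agent.Q122.FM

noncomputable section

/-- the Moebius function, real -/
def mur (n : ℕ) : ℝ := ((ArithmeticFunction.moebius n : ℤ) : ℝ)

/-- the powers as an arithmetic function -/
def pwf (x : ℝ) : ArithmeticFunction ℝ := ⟨fun n => if n = 0 then 0 else (n : ℝ) ^ (-x), by simp⟩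

lemma pwf_apply (x : ℝ) (n : ℕ) (hn : n ≠ 0) : pwf x n = (n : ℝ) ^ (-x) := by
  change (if n = 0 then 0 else (n : ℝ) ^ (-x)) = _
  rw [if_neg hn]

lemma pwf_mult (x : ℝ) : (pwf x).IsMultiplicative := by
  constructor
  · rw [pwf_apply x 1 one_ne_zero]
    simp
  · intro m n _
    by_cases hm : m = 0
    · subst hm; simp
    by_cases hn : n = 0
    · subst hn; simp
    rw [pwf_apply x _ (mul_ne_zero hm hn), pwf_apply x _ hm, pwf_apply x _ hn]
    push_cast
    rw [Real.mul_rpow (Nat.cast_nonneg m) (Nat.cast_nonneg n)]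

lemma sqf_rad (m : ℕ) : Squarefree (∏ p ∈ m.primeFactors, p) := by
  refine Finset.squarefree_prod_of_pairwise_isCoprime (fun p hp q hq hpq ↦ ?_)
    (fun p hp => (Nat.prime_of_mem_primeFactors hp).prime.squarefree)
  rw [Function.onFun]
  rw [← Nat.coprime_iff_isRelPrime]
  exact (Nat.coprime_primes (Nat.prime_of_mem_primeFactors hp)
    (Nat.prime_of_mem_primeFactors hq)).mpr hpq

lemma prod_id (m : ℕ) (hm : 1 ≤ m) (x : ℝ) :
    ∏ p ∈ m.primeFactors, (1 - (p : ℝ) ^ (-x)) = ∑ g ∈ m.divisors, mur g * (g : ℝ) ^ (-x) := by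
  set r : ℕ := ∏ p ∈ m.primeFactors, p with hr
  have h1 := (pwf_mult x).prodPrimeFactors_one_sub_of_squarefree (pwf x) (sqf_rad m)
  rw [Nat.primeFactors_prod_primeFactors] at h1
  have h2 : ∏ p ∈ m.primeFactors, (1 - (p : ℝ) ^ (-x)) = ∏ p ∈ m.primeFactors, (1 - pwf x p) := by
    apply Finset.prod_congr rfl
    intro p hp
    rw [pwf_apply x p (Nat.prime_of_mem_primeFactors hp).ne_zero]
  rw [h2, h1]
  have hrm : r ∣ m := Nat.prod_primeFactors_dvd m
  have h3 : ∑ d ∈ r.divisors, ((ArithmeticFunction.moebius d : ℤ) : ℝ) * pwf x d =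
      ∑ d ∈ r.divisors, mur d * (d : ℝ) ^ (-x) := by
    apply Finset.sum_congr rfl
    intro d hd
    rw [pwf_apply x d (Nat.pos_of_mem_divisors hd).ne']
    rfl
  rw [← hr, h3]
  apply Finset.sum_subset (Nat.divisors_subset_of_dvd (by omega) hrm)
  intro g hg hg'
  have hns : ¬ Squarefree g := by
    intro hs
    apply hg'
    rw [Nat.mem_divisors] at hg ⊢
    refine ⟨?_, (sqf_rad m).ne_zero⟩
    rw [← Nat.prod_primeFactors_of_squarefree hs]
    exact Finset.prod_dvd_prod_of_subset _ _ _ (Nat.primeFactors_mono hg.1 (by omega))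
  rw [mur, ArithmeticFunction.moebius_eq_zero_of_not_squarefree hns]
  simp

lemma tot_id (m : ℕ) (hm : 1 ≤ m) : (m.totient : ℝ) / m = ∏ p ∈ m.primeFactors, (1 - (p : ℝ)⁻¹) := by
  have h1 := congrArg (fun q : ℚ => (q : ℝ)) (Nat.totient_eq_mul_prod_factors m)
  push_cast at h1
  rw [h1]
  have : (m : ℝ) ≠ 0 := by
    have : m ≠ 0 := by omega
    exact_mod_cast this
  field_simp

lemma sum1 (m : ℕ) (hm : 1 ≤ m) : ∑ g ∈ m.divisors, mur g / g = (m.totient : ℝ) / m := by
  rw [tot_id m hm]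
  have h := prod_id m hm 1
  simp only [Real.rpow_neg_one] at h
  rw [h]
  rfl

lemma sum2 (m : ℕ) (hm : 1 ≤ m) :
    ∑ g ∈ m.divisors, mur g / g * Real.log g = -((m.totient : ℝ) / m * Lam m) := by
  have hL : HasDerivAt (fun x : ℝ => ∏ p ∈ m.primeFactors, (1 - (p : ℝ) ^ (-x)))
      (∑ p ∈ m.primeFactors, (∏ q ∈ m.primeFactors.erase p, (1 - (q : ℝ) ^ (-(1 : ℝ)))) •
        (-(Real.log p * (-1) * (p : ℝ) ^ (-(1 : ℝ))))) 1 := by
    apply HasDerivAt.fun_finsetProd
    intro p hp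
    have hp0 : (0 : ℝ) < p := by exact_mod_cast (Nat.prime_of_mem_primeFactors hp).pos
    have h := ((hasDerivAt_neg (1 : ℝ)).const_rpow hp0).const_sub 1
    exact h
  have hR : HasDerivAt (fun x : ℝ => ∑ g ∈ m.divisors, mur g * (g : ℝ) ^ (-x))
      (∑ g ∈ m.divisors, mur g * (Real.log g * (-1) * (g : ℝ) ^ (-(1 : ℝ)))) 1 := by
    apply HasDerivAt.fun_sum
    intro g hg
    have hg0 : (0 : ℝ) < g := by exact_mod_cast Nat.pos_of_mem_divisors hg
    exact ((hasDerivAt_neg (1 : ℝ)).const_rpow hg0).const_mul (mur g)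
  have hfe : (fun x : ℝ => ∏ p ∈ m.primeFactors, (1 - (p : ℝ) ^ (-x))) =
      fun x : ℝ => ∑ g ∈ m.divisors, mur g * (g : ℝ) ^ (-x) := by
    funext x
    exact prod_id m hm x
  rw [hfe] at hL
  have h := hL.unique hR
  have h1 : ∑ g ∈ m.divisors, mur g * (Real.log g * (-1) * (g : ℝ) ^ (-(1 : ℝ))) =
      -∑ g ∈ m.divisors, mur g / g * Real.log g := by
    rw [← Finset.sum_neg_distrib]
    apply Finset.sum_congr rfl
    intro g _
    rw [Real.rpow_neg_one]
    ring
  have h2 : ∑ p ∈ m.primeFactors, (∏ q ∈ m.primeFactors.erase p, (1 - (q : ℝ) ^ (-(1 : ℝ)))) •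
        (-(Real.log p * (-1) * (p : ℝ) ^ (-(1 : ℝ)))) = (m.totient : ℝ) / m * Lam m := by
    rw [tot_id m hm, Lam, Finset.mul_sum]
    apply Finset.sum_congr rfl
    intro p hp
    have hpp := Nat.prime_of_mem_primeFactors hp
    have hp1 : (1 : ℝ) < p := by exact_mod_cast hpp.one_lt
    rw [← Finset.mul_prod_erase m.primeFactors _ hp]
    simp only [Real.rpow_neg_one, smul_eq_mul]
    have h3 : (p : ℝ) - 1 ≠ 0 := by linarith
    have h4 : (p : ℝ) ≠ 0 := by linarith
    field_simp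
  rw [h1, h2] at h
  linarith

/-- the harmonic sum -/
def hh (W : ℝ) : ℝ := ∑ v ∈ Icc 1 ⌊W⌋₊, 1 / (v : ℝ)

lemma hh_bd (W : ℝ) (hW : 0 < W) :
    |hh W - (Real.log W + Real.eulerMascheroniConstant)| ≤ 3 * W ^ (-(1 / 2) : ℝ) := by
  have hs0 : 0 < Real.sqrt W := Real.sqrt_pos.mpr hW
  have hpow : W ^ (-(1 / 2) : ℝ) = (Real.sqrt W)⁻¹ := by
    rw [Real.rpow_neg hW.le, Real.sqrt_eq_rpow]
  have hsq : Real.sqrt W ^ 2 = W := Real.sq_sqrt hW.le
  have hγ0 := Real.one_half_lt_eulerMascheroniConstant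
  have hγ1 := Real.eulerMascheroniConstant_lt_two_thirds
  rcases lt_or_ge W 1 with h1 | h1
  · have hf : ⌊W⌋₊ = 0 := Nat.floor_eq_zero.mpr h1
    have hh0 : hh W = 0 := by
      unfold hh
      rw [hf]
      simp
    have hlog : Real.log W ≤ 0 := Real.log_nonpos hW.le h1.le
    have hlog2 : -Real.log W ≤ 2 * ((Real.sqrt W)⁻¹ - 1) := by
      have h2 := Real.log_le_sub_one_of_pos (inv_pos.mpr hs0)
      rw [Real.log_inv, Real.log_sqrt hW.le] at h2
      linarith
    have hs1 : Real.sqrt W ≤ 1 := by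
      exact Real.sqrt_le_one.mpr h1.le
    have h3 : 1 ≤ (Real.sqrt W)⁻¹ := (one_le_inv₀ hs0).mpr hs1
    rw [hh0, hpow, abs_le]
    constructor <;> linarith
  · set n : ℕ := ⌊W⌋₊ with hn
    have hn1 : 1 ≤ n := Nat.le_floor (by exact_mod_cast h1)
    have hn1' : (1 : ℝ) ≤ n := by exact_mod_cast hn1
    have hnW : (n : ℝ) ≤ W := Nat.floor_le hW.le
    have hWn : W < n + 1 := Nat.lt_floor_add_one W
    have hhn : hh W = (harmonic n : ℝ) := by
      unfold hh
      rw [harmonic_eq_sum_Icc]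
      push_cast
      simp only [one_div]
      rfl
    have a1 := Real.eulerMascheroniSeq_lt_eulerMascheroniConstant n
    have a2 := Real.eulerMascheroniConstant_lt_eulerMascheroniSeq' n
    rw [Real.eulerMascheroniSeq] at a1
    rw [Real.eulerMascheroniSeq', if_neg (by omega)] at a2
    have b1 : Real.log n ≤ Real.log W := Real.log_le_log (by linarith) hnW
    have b2 : Real.log W ≤ Real.log (n + 1) := Real.log_le_log hW hWn.le
    have b3 : Real.log ((n : ℝ) + 1) - Real.log n ≤ 1 / n := by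
      rw [← Real.log_div (by linarith) (by linarith)]
      have := Real.log_le_sub_one_of_pos (show 0 < ((n : ℝ) + 1) / n by positivity)
      have e : ((n : ℝ) + 1) / n - 1 = 1 / n := by field_simp; ring
      linarith
    have b4 : 1 / (n : ℝ) ≤ 3 * (Real.sqrt W)⁻¹ := by
      have h5 : 1 ≤ Real.sqrt W := by
        rw [Real.one_le_sqrt]
        exact h1
      rw [div_le_iff₀ (by linarith), ← div_eq_mul_inv, div_mul_eq_mul_div, le_div_iff₀ hs0]
      nlinarith
    rw [hhn, hpow, abs_le]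
    constructor <;> linarith

lemma mur_sum (n : ℕ) : ∑ d ∈ n.divisors, mur d = if n = 1 then 1 else 0 := by
  have h := congrArg (fun f => f n) ArithmeticFunction.moebius_mul_coe_zeta
  simp only [ArithmeticFunction.coe_mul_zeta_apply, ArithmeticFunction.one_apply] at h
  have h2 := congrArg (fun z : ℤ => (z : ℝ)) h
  push_cast at h2
  exact h2

lemma Hm_eq (m : ℕ) (hm : 1 ≤ m) (V : ℝ) :
    Hm m V = ∑ g ∈ m.divisors, mur g / g * hh (V / g) := by
  have h1 : Hm m V = ∑ v ∈ Icc 1 ⌊V⌋₊, ∑ g ∈ m.divisors,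
      (if g ∣ v then mur g * (1 / (v : ℝ)) else 0) := by
    unfold Hm
    rw [Finset.sum_filter]
    apply Finset.sum_congr rfl
    intro v hv
    have hv1 := (Finset.mem_Icc.mp hv).1
    have h2 : ∑ g ∈ m.divisors, (if g ∣ v then mur g * (1 / (v : ℝ)) else 0) =
        (∑ g ∈ (v.gcd m).divisors, mur g) * (1 / (v : ℝ)) := by
      rw [← Finset.sum_filter, Finset.sum_mul]
      apply Finset.sum_congr _ (fun _ _ => rfl)
      ext g
      simp only [Finset.mem_filter, Nat.mem_divisors]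
      constructor
      · rintro ⟨⟨h3, _⟩, h4⟩
        exact ⟨Nat.dvd_gcd h4 h3, Nat.gcd_ne_zero_left (by omega)⟩
      · rintro ⟨h3, _⟩
        exact ⟨⟨h3.trans (Nat.gcd_dvd_right v m), by omega⟩, h3.trans (Nat.gcd_dvd_left v m)⟩
    rw [h2, mur_sum]
    by_cases h5 : v.Coprime m
    · have h6 : v.gcd m = 1 := h5
      rw [if_pos h5, if_pos h6, one_mul]
    · have h6 : ¬ (v.gcd m = 1) := h5
      rw [if_neg h5, if_neg h6, zero_mul]
  rw [h1, Finset.sum_comm]
  apply Finset.sum_congr rfl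
  intro g hg
  have hg0 : 0 < g := Nat.pos_of_mem_divisors hg
  have hg0' : (0 : ℝ) < g := by exact_mod_cast hg0
  rw [← Finset.sum_filter, hh, Nat.floor_div_natCast, Finset.mul_sum]
  symm
  apply Finset.sum_bij (fun (u : ℕ) _ => g * u)
  · intro u hu
    rw [Finset.mem_Icc] at hu
    rw [Finset.mem_filter, Finset.mem_Icc]
    refine ⟨⟨Nat.mul_pos hg0 hu.1, ?_⟩, dvd_mul_right g u⟩
    rw [mul_comm]
    exact (Nat.le_div_iff_mul_le hg0).mp hu.2
  · intro u _ u' _ h
    exact Nat.eq_of_mul_eq_mul_left hg0 h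
  · intro v hv
    rw [Finset.mem_filter, Finset.mem_Icc] at hv
    obtain ⟨⟨h2, h3⟩, h4⟩ := hv
    obtain ⟨u, rfl⟩ := h4
    refine ⟨u, ?_, rfl⟩
    rw [Finset.mem_Icc]
    refine ⟨Nat.pos_of_mul_pos_left h2, ?_⟩
    rw [Nat.le_div_iff_mul_le hg0, mul_comm]
    exact h3
  · intro u hu
    rw [Finset.mem_Icc] at hu
    have : (0 : ℝ) < u := by exact_mod_cast hu.1
    push_cast
    field_simp

theorem t_SQH : S_SQH := by
  refine ⟨3, by norm_num, ?_⟩
  intro m V hm hV
  have h1 : (m.totient : ℝ) / m * (Real.log V + Real.eulerMascheroniConstant + Lam m) =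
      ∑ g ∈ m.divisors, mur g / g * (Real.log (V / g) + Real.eulerMascheroniConstant) := by
    have h2 : ∑ g ∈ m.divisors, mur g / g * (Real.log (V / g) + Real.eulerMascheroniConstant) =
        (∑ g ∈ m.divisors, mur g / g) * (Real.log V + Real.eulerMascheroniConstant) -
          ∑ g ∈ m.divisors, mur g / g * Real.log g := by
      rw [Finset.sum_mul, ← Finset.sum_sub_distrib]
      apply Finset.sum_congr rfl
      intro g hg
      have hg0 : (0 : ℝ) < g := by exact_mod_cast Nat.pos_of_mem_divisors hg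
      rw [Real.log_div hV.ne' hg0.ne']
      ring
    rw [h2, sum1 m hm, sum2 m hm]
    ring
  rw [h1, Hm_eq m hm V, ← Finset.sum_sub_distrib]
  calc |∑ g ∈ m.divisors, (mur g / g * hh (V / g) -
        mur g / g * (Real.log (V / g) + Real.eulerMascheroniConstant))|
      ≤ ∑ g ∈ m.divisors, |mur g / g * hh (V / g) -
        mur g / g * (Real.log (V / g) + Real.eulerMascheroniConstant)| :=
        Finset.abs_sum_le_sum_abs _ _
    _ ≤ ∑ g ∈ m.divisors, 3 * V ^ (-(1 / 2) : ℝ) * (1 / Real.sqrt g) := by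
        apply Finset.sum_le_sum
        intro g hg
        have hg0 : (0 : ℝ) < g := by exact_mod_cast Nat.pos_of_mem_divisors hg
        rw [← mul_sub, abs_mul]
        have h3 : |mur g / g| ≤ 1 / g := by
          rw [abs_div, abs_of_pos hg0]
          have h4 : |mur g| ≤ 1 := by
            unfold mur
            have := ArithmeticFunction.abs_moebius_le_one (n := g)
            exact_mod_cast this
          gcongr
        have h5 := hh_bd (V / g) (by positivity)
        have h6 : (V / g) ^ (-(1 / 2) : ℝ) = V ^ (-(1 / 2) : ℝ) * Real.sqrt g := by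
          rw [Real.div_rpow hV.le hg0.le, Real.rpow_neg hg0.le, Real.sqrt_eq_rpow, div_inv_eq_mul]
        calc |mur g / g| * |hh (V / g) - (Real.log (V / g) + Real.eulerMascheroniConstant)|
            ≤ 1 / g * (3 * (V / g) ^ (-(1 / 2) : ℝ)) := by gcongr
          _ = 3 * V ^ (-(1 / 2) : ℝ) * (Real.sqrt g / g) := by rw [h6]; ring
          _ = 3 * V ^ (-(1 / 2) : ℝ) * (1 / Real.sqrt g) := by
              rw [Real.sqrt_div_self']
    _ = 3 * V ^ (-(1 / 2) : ℝ) * ∑ g ∈ m.divisors, 1 / Real.sqrt g := by rw [Finset.mul_sum]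

end

end Pool.Agent.Q275.FM
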